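import Pool.Agent.Helper36.AM.Rw

/-! ALL DIMENSIONS: the classes `(D_k)`: at every window `c` the canonical forms have `k` exponents at most `c`. -/

set_option autoImplicit false

namespace Pool.Agent.Helper36.AM

open Finset Filter Topology Matrix Pool.Agent.Helper69.RK Pool.Agent.Helper31.EC Pool.Agent.Helper31.EC.Sp
open Pool.Agent.Helper40.EL Pool.Agent.Helper89.LX Pool.Agent.Helper3.LF Pool.Agent.Helper84.MT

noncomputable section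

variable {S : Sp} {M : ℕ}

/-- `k` orthonormal directions in which the form `G` is at most `B` -/
def UDp (k : ℕ) (G : Matrix (Fin M) (Fin M) ℝ) (B : ℝ) : Prop :=
  ∃ v : Fin k → Fin M → ℝ, (∀ i j, v i ⬝ᵥ v j = if i = j then 1 else 0) ∧ ∀ i, v i ⬝ᵥ (G *ᵥ v i) ≤ B

theorem UDp.mono {k : ℕ} {G G' : Matrix (Fin M) (Fin M) ℝ} {B B' c : ℝ} (h : UDp k G B) (hc : 0 ≤ c)
    (hG : ∀ v, v ⬝ᵥ (G' *ᵥ v) ≤ c * (v ⬝ᵥ (G *ᵥ v))) (hB : c * B ≤ B') : UDp k G' B' := by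
  obtain ⟨v, h1, h2⟩ := h
  exact ⟨v, h1, fun i => (hG _).trans ((mul_le_mul_of_nonneg_left (h2 i) hc).trans hB)⟩

/-- the form of a label has `k` exponents at most `c` -/
def UDf (Q : S.VV M) (k : ℕ) (c : ℝ) {D : ℕ} (x : ∀ n, FD (S.F n) (Mon M D)) : Prop :=
  ∀ e : ℝ, 0 < e → Sp.Typ (S := (lb x).sp) (fun n (ω : (x n).l.T.Ω) =>
    UDp k (Jq (S.dl 1 n) ((x n).g ω) (Q.v n ((x n).l.p.π ω))) (2 ^ (2 * (c + e) * (S.F n).n)))

/-- THE CLASS `(D_k)` -/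
def DK (M k : ℕ) : MCl M := fun S _ _ s => ∀ (D : ℕ) (c : ℝ), 0 ≤ c → c ≤ 1 →
  ∀ x : ∀ n, FD (S.F n) (Mon M D), s.IsCan D c x → UDf s.Q k c x

/-- few exponents of the optimal form are few exponents of every admissible form -/
theorem UDf.low {κ : Type} {A : κ → Part S} {Q : S.VV M} {D k : ℕ} {c : ℝ} {x y : ∀ n, FD (S.F n) (Mon M D)}
    (hx : (gaq Q D).Optf A x) (hy : (gaq Q D).Adf A y) (h : UDf Q k c x) : UDf Q k c y := by
  intro e he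
  have h1 := Gau.Optf.dom (gaq Q D) hx hy e he
  have h2 : Tendsto (fun n => (x n).l.T.pb (fun ω => ¬ UDp k (Jq (S.dl 1 n) ((x n).g ω) (Q.v n ((x n).l.p.π ω)))
    (2 ^ (2 * (c + e / 2) * (S.F n).n)))) UF (𝓝 0) := h (e / 2) (by linarith)
  show Tendsto (fun n => (y n).l.T.pb (fun ω => ¬ UDp k (Jq (S.dl 1 n) ((y n).g ω) (Q.v n ((y n).l.p.π ω)))
    (2 ^ (2 * (c + e) * (S.F n).n)))) UF (𝓝 0)
  have h3 := h1.add h2
  rw [add_zero] at h3
  refine tendsto_of_tendsto_of_tendsto_of_le_of_le tendsto_const_nhds h3 (fun n => (y n).l.T.pb_nonneg _) (fun n => ?_)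
  have h4 := pb_push ((x n).l.am (y n).l).p1 (fun ω => ¬ UDp k (Jq (S.dl 1 n) ((x n).g ω) (Q.v n ((x n).l.p.π ω)))
    (2 ^ (2 * (c + e / 2) * (S.F n).n)))
  have h5 := pb_push ((x n).l.am (y n).l).p2 (fun ω => ¬ UDp k (Jq (S.dl 1 n) ((y n).g ω) (Q.v n ((y n).l.p.π ω)))
    (2 ^ (2 * (c + e) * (S.F n).n)))
  show (y n).l.T.pb _ ≤ ((x n).jj (y n)).l.T.pb _ + (x n).l.T.pb _
  rw [← h4, ← h5]
  refine le_trans (FSp.pb_mono _ (E' := fun w : ((x n).l.am (y n).l).sp.Ω =>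
    (¬ ∀ v, qf (((x n).jj (y n)).g' w) v ≤ 2 ^ (e * (S.F n).n) * qf (((x n).jj (y n)).g w) v) ∨
    ¬ UDp k (Jq (S.dl 1 n) ((x n).g (((x n).l.am (y n).l).p1.π w)) (Q.v n ((x n).l.p.π (((x n).l.am (y n).l).p1.π w))))
      (2 ^ (2 * (c + e / 2) * (S.F n).n))) ?_) (pb_or _ _ _)
  intro w hw h6
  by_contra hc
  rw [not_or, not_not, not_not] at hc
  apply h6
  have e1 : (x n).l.p.π (((x n).l.am (y n).l).p1.π w) = (y n).l.p.π (((x n).l.am (y n).l).p2.π w) :=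
    (x n).jj_supp (y n) w hw
  have h7 := hc.2
  rw [e1] at h7
  refine h7.mono (c := 2 ^ (e * (S.F n).n)) (by positivity) (fun v => ?_) (le_of_eq ?_)
  · rw [Jq_qf, Jq_qf, Finset.mul_sum]
    exact Finset.sum_le_sum fun j _ => hc.1 _
  · rw [← Real.rpow_add (by norm_num)]
    congr 1
    ring

end

end Pool.Agent.Helper36.AM
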