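import Pool.Agent.Helper36.AM.St
import Pool.Agent.Helper14.MT1.St1u

/-! `STu 0`, `STu 1` (helper14's proofs: the degrees are `0` and `1`). -/

set_option autoImplicit false

namespace Pool.Agent.Helper36.AM

open Finset Filter Topology Matrix Pool.Agent.Helper69.RK Pool.Agent.Helper31.EC Pool.Agent.Helper31.EC.Sp
open Pool.Agent.Helper40.EL Pool.Agent.Helper84.MT Pool.Agent.Helper3.LF Pool.Agent.Helper89.LX
open Pool.Agent.Helper14.MT1

noncomputable section

theorem stu_zero : STu 0 := by
  intro g
  refine ⟨0, fun D _ r S s x hx => ?_⟩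
  have h1 : vol s.Q D x = 0 := by
    unfold vol
    have h2 : (fun k => ∑ ω, (x k).l.T.μ ω *
      (Real.logb 2 (GQ (S.dl 1 k) ((x k).g ω) (s.Q.v k ((x k).l.p.π ω))) / (2 * (S.F k).n))) = fun _ => (0 : ℝ) := by
      funext k
      apply Finset.sum_eq_zero
      intro ω _
      unfold GQ
      rw [Matrix.det_isEmpty, Real.logb_one, zero_div, mul_zero]
    rw [h2, ul_const]
    simp
  rw [h1]
  exact H_nonneg _

theorem stu_one : STu 1 := by
  intro g
  refine ⟨1, fun D hD r S s x hx => ?_⟩
  exact st1_of_slp (fun i => (exists_slp typD (s.lf i)).some) hD hx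

end

end Pool.Agent.Helper36.AM
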