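import Pool.Agent.Helper36.AM.Inp
import Pool.Agent.Helper35.EM.End
import Pool.Agent.Helper89.LX.Njg

/-! ALL DIMENSIONS: the induction. From the frozen statements of `St.lean` to `ST M` for all `M` and the Kakeya
conjecture in all dimensions. -/

set_option autoImplicit false

namespace Pool.Agent.Helper36.AM

open Finset Filter Topology Pool.Agent.Helper69.RK Pool.Agent.Helper31.EC Pool.Agent.Helper31.EC.Sp
open Pool.Agent.Helper40.EL Pool.Agent.Helper89.LX Pool.Agent.Helper3.LF Pool.Agent.Helper84.MT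
open Pool.Agent.Helper49.MD (lft DiagCl)

noncomputable section

variable {S : Sp} {M : ℕ} {E : ℕ → ℕ} {ι : Type}

/-- entropy of the point over a label without leak at the point -/
theorem H_over (Q : S.VV M) (l : Lab S) (hl : Nul S (fun k => (l k).leak (pcd Q k))) :
    H (up1 l (Q.dg 1)) = ul (fun k => H (pcd Q k) / (S.F k).n) - l.info := by
  have hB : UB (fun k => H (pcd Q k) / (S.F k).n) := pcd_Bd Q
  have e0 : Q.dg 1 = cl (Q.bdd 1).toInf := io_eq (Q.bdd 1)
  have hI : UB (fun k => (l k).info / (S.F k).n) := Lab.DM.ub ⟨hl, hl⟩ (pcd_Bd Q)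
  have hL : UB (fun k => (l k).leak (pcd Q k) / (S.F k).n) := UB_of_tendsto hl
  have h1 : H (up1 l (Q.dg 1)) = ul (fun k => h ((l k).p.map (pcd Q k)) (l k).v / (S.F k).n) := by
    rw [e0]
    exact H_up1_cl l _
  have h2 : (fun k => h ((l k).p.map (pcd Q k)) (l k).v / (S.F k).n) = fun k =>
      (H (pcd Q k) / (S.F k).n - (l k).info / (S.F k).n) + (l k).leak (pcd Q k) / (S.F k).n := by
    funext k
    have a1 := (l k).info_eq_leak (pcd Q k)
    have a2 := I_eq' (l k).v ((l k).p.map (pcd Q k)) ⊥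
    rw [sup_bot_eq, h_bot, (l k).p.H_map] at a2
    rw [← sub_div, ← add_div]
    congr 1
    linarith
  rw [h1, h2, ul_add (hB.sub hI) hL, ul_sub hB hI, ul_eq hl, add_zero]
  rfl

theorem HQ_eq [Countable ι] (s : MSys S M E ι) {c : ℝ} {l : Lab S} (hl : s.IsKap c l) :
    H (up1 l (s.Q.dg 1)) = HQ s c := by
  have h1 := H_over s.Q l (hl.1 none)
  have h2 := H_over s.Q (s.kap c) ((s.kap_isKap c).1 none)
  have h3 : l.info = (s.kap c).info := le_antisymm ((s.kap_isKap c).2 l hl.1) (hl.2 _ (s.kap_isKap c).1)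
  unfold HQ
  rw [h1, h2, h3]

/-- `ST M` from the structure theorem in all degrees and the bound of the degrees -/
theorem st_of_sto (hlt : ∀ m, m < M → STu m) (hd : DGRu M) (h : STO M (top M)) : STu M := by
  intro g
  obtain ⟨D₁, h1⟩ := hd hlt g
  refine ⟨D₁, fun D hD r => ?_⟩
  rw [STm_iff]
  intro S s x hx
  rw [HQ_eq s hx.2]
  exact (h1 D hD r S s).trans (h S g r s trivial)

theorem nd1_le (w : Fin M → ℝ) : nd1 w ≤ M := by
  classical
  unfold nd1
  refine (Finset.card_le_univ _).trans ?_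
  rw [Fintype.card_fin]

theorem nd1_pos (w : Fin (M + 1) → ℝ) (h : w 0 = 1) : 1 ≤ nd1 w := by
  classical
  unfold nd1
  exact Finset.card_pos.2 ⟨0, by simp [h]⟩

section induction

variable {DK CL CC : ∀ (M : ℕ), ℕ → MCl M} (I : Inp DK CL CC)
include I

/-- the classes `(D_k)`, `k ≥ 2` -/
theorem sto_DK (M : ℕ) (hlt : ∀ m, m < M + 2 → STu m) (d k : ℕ) (hd : M + 3 ≤ k + d) (hk : 2 ≤ k) :
    STO (M + 2) (DK (M + 2) k) := by
  induction d generalizing k with
  | zero =>
    by_contra hn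
    obtain ⟨g, r, w, ρ, TT, hT⟩ := I.mxD M k hlt hn
    have h1 := I.dlow M k g r w ρ TT hT
    have h2 := nd1_le w
    omega
  | succ d ih =>
    by_contra hn
    obtain ⟨g, r, w, ρ, TT, hT⟩ := I.mxD M k hlt hn
    have h1 := I.dlow M k g r w ρ TT hT
    exact I.blk M (fun m h => (hlt m h).st) _ g r w ρ TT hT (hk.trans h1) (ih (nd1 w + 1) (by omega) (by omega))

/-- a class without a homogeneous class with one weight one -/
theorem hom_one (M : ℕ) (hlt : ∀ m, m < M + 2 → STu m) {Cl : MCl (M + 2)} {g r : ℕ} {w : Fin (M + 2) → ℝ} {ρ : ℝ}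
    {TT : ∀ S : Sp, MSys S (M + 2) (lin g) (Fin r) → Prop} (hT : Hom (M + 1) Cl g r w ρ TT) : nd1 w = 1 := by
  by_contra hn
  have h1 : 1 ≤ nd1 w := nd1_pos w hT.one
  exact I.blk M (fun m h => (hlt m h).st) _ g r w ρ TT hT (by omega) (sto_DK I M hlt (M + 3) _ (by omega) (by omega))

/-- no homogeneous class with lowest weight `K` -/
theorem no_hom (M : ℕ) (hlt : ∀ m, m < M + 2 → STu m) (K : ℕ) {Cl : MCl (M + 2)} {g r : ℕ} {w : Fin (M + 2) → ℝ}
    {ρ : ℝ} {TT : ∀ S : Sp, MSys S (M + 2) (lin g) (Fin r) → Prop} (hT : Hom (M + 1) Cl g r w ρ TT) (hw : w 1 = K) :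
    False := by
  induction K using Nat.strong_induction_on generalizing Cl g r w ρ TT with
  | _ K ih =>
    have h2 : STO (M + 2) (DK (M + 2) 2) := sto_DK I M hlt (M + 1) 2 (by omega) le_rfl
    obtain ⟨K', hK', h3, h4⟩ := I.blk1 M hlt (fun m h => (hlt m h).st) _ g r w ρ TT hT (hom_one I M hlt hT) h2
    have e : K' = K := by
      have : (K' : ℝ) = K := h3.symm.trans hw
      exact_mod_cast this
    subst e
    obtain ⟨g', r', w', ρ', TT', hT'⟩ := I.mxC M (K' - 2) hlt h4
    have h5 := hom_one I M hlt hT'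
    have h6 := I.low M _ g' r' w' ρ' TT' hT' h5
    obtain ⟨K'', hK'', h7, _⟩ := I.blk1 M hlt (fun m h => (hlt m h).st) _ g' r' w' ρ' TT' hT' h5 h2
    have h8 : K'' ≤ K' - 2 + 1 := by
      rw [h7] at h6
      exact_mod_cast h6
    exact ih K'' (by omega) hT' h7

/-- the induction step -/
theorem st_step (M : ℕ) (hlt : ∀ m, m < M + 2 → STu m) : STu (M + 2) := by
  refine st_of_sto hlt (I.dgr M) ?_
  by_contra hn
  obtain ⟨g, r, w, ρ, TT, hT⟩ := I.mxT M hlt hn
  obtain ⟨K, _, hK, _⟩ := I.blk1 M hlt (fun m h => (hlt m h).st) _ g r w ρ TT hT (hom_one I M hlt hT) (sto_DK I M hlt (M + 1) 2 (by omega) le_rfl)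
  exact no_hom I M hlt K hT hK

/-- `ST M` for all `M` -/
theorem st_all (M : ℕ) : STu M := by
  induction M using Nat.strong_induction_on with
  | _ M ih =>
    match M, ih with
    | 0, _ => exact I.st0
    | 1, _ => exact I.st1
    | M + 2, ih => exact st_step I M ih

/-- THE KAKEYA CONJECTURE in all dimensions from the frozen statements -/
theorem kakeya_all (n : ℕ) (hn : 2 ≤ n) (K : Set (EuclideanSpace ℝ (Fin n)))
    (hK : ∀ e : EuclideanSpace ℝ (Fin n), ‖e‖ = 1 → ∃ p, ∀ t : ℝ, 0 ≤ t → t ≤ 1 → p + t • e ∈ K) : dimH K = n :=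
  Pool.Agent.Helper35.EM.kakeya_of_ST n hn (st_all I n).st K hK

end induction

end

end Pool.Agent.Helper36.AM
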