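import Pool.Agent.Helper84.MT.Evt
import Pool.Agent.Helper49.MD.Lim
import Pool.Agent.Helper81.MT.Trn

/-! ALL DIMENSIONS, level of systems of leaves (`MSys`): classes of systems, volume of the hull in all degrees, `STO`
(structure theorem for a class), frames of labels, zooms in the coordinates of a frame, homogeneous classes (the output
of MAX, the input of the corner block). -/

set_option autoImplicit false

namespace Pool.Agent.Helper36.AM

open Finset Filter Topology Pool.Agent.Helper69.RK Pool.Agent.Helper31.EC Pool.Agent.Helper31.EC.Sp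
open Pool.Agent.Helper40.EL Pool.Agent.Helper89.LX Pool.Agent.Helper3.LF Pool.Agent.Helper84.MT
open Pool.Agent.Helper49.MD (lft DiagCl)

noncomputable section

/-- classes of systems of leaves in `R ^ M`, linear exponents `lin g`, `r` types -/
def MCl (M : ℕ) : Type 1 := ∀ (S : Sp) (g r : ℕ), MSys S M (lin g) (Fin r) → Prop

variable {S : Sp} {M : ℕ} {E : ℕ → ℕ} {ι : Type}

/-- VOLUME of the hull of the window `c`, all degrees -/
def volO [Finite ι] (s : MSys S M E ι) (c : ℝ) : ℝ := ⨅ D : ℕ, s.vol D c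

/-- rate of the entropy of the point over `kappa_c` -/
def HQ [Countable ι] (s : MSys S M E ι) (c : ℝ) : ℝ := H (up1 (s.kap c) (s.Q.dg 1))

/-- STRUCTURE THEOREM for a class of systems: over `kappa_0` the point fills the hull (all degrees) -/
def STO (M : ℕ) (Cl : MCl M) : Prop := ∀ (S : Sp) (g r : ℕ) (s : MSys S M (lin g) (Fin r)), Cl S g r s → volO s 0 ≤ HQ s 0

/-- the class of all systems -/
def top (M : ℕ) : MCl M := fun _ _ _ _ => True

/-- `ST M` with a bound of the degrees which does not depend on the number of types -/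
def STu (M : ℕ) : Prop := ∀ g : ℕ, ∃ D₁ : ℕ, ∀ D, D₁ ≤ D → ∀ r : ℕ, STm D M (lin g) (Fin r)

/-- row DGR: degrees are bounded -/
def DGR (M : ℕ) : Prop := (∀ m, m < M → ST m) → ∀ g r : ℕ, ∃ D₁ : ℕ, ∀ D, D₁ ≤ D → ∀ (S : Sp)
  (s : MSys S M (lin g) (Fin r)), s.vol D 0 ≤ volO s 0

/-- row DGR, uniformly in the number of types -/
def DGRu (M : ℕ) : Prop := (∀ m, m < M → STu m) → ∀ g : ℕ, ∃ D₁ : ℕ, ∀ D, D₁ ≤ D → ∀ (r : ℕ) (S : Sp)
  (s : MSys S M (lin g) (Fin r)), s.vol D 0 ≤ volO s 0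

theorem STu.st {M : ℕ} (h : STu M) : ST M := fun g r => (h g).imp fun _ hD D h1 => hD D h1 r

theorem DGRu.dgr {M : ℕ} (h : DGRu M) (hst : ∀ m, m < M → STu m) : DGR M := fun _ g r =>
  (h hst g).imp fun _ hD D h1 => hD D h1 r

/-! ### frames and zooms -/

/-- FRAME of the label `l`, exponents `La` (the box of `l`): the point is the value at `X` of a triangular chart
`x_j = P_j(U_1, .., U_(j-1)) + U_j`, `U_i = 2^(-La_i n) X_i`; the coefficients of `P` are tame and known to `l`; `P_j` has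
weighted degree less than `La_j` if `X_i` has weight `La_i` -/
structure Frm (Q : S.VV M) (l : Lab S) (La : Fin M → ℝ) where
  X : l.sp.VV M
  P : ∀ k, (l.sp.F k).Ω → Fin M → MvPolynomial (Fin M) ℝ
  tri : ∀ k ω j, ∀ i ∈ (P k ω j).vars, i < j
  red : ∀ k ω j, ∀ a ∈ (P k ω j).support, a ≠ 0 → ∑ i, (a i : ℝ) * La i < La j
  fn : ∀ᶠ k in UF, ∀ ω ω', (l.sp.F k).μ ω ≠ 0 → (l.sp.F k).μ ω' ≠ 0 → (l.sp.F k).Z ω ω' → l.V k ω ω' → P k ω = P k ω'
  bd : ∃ K : ℕ → ℝ, S.Sub K ∧ ∀ᶠ k in UF, ∀ ω, (l.sp.F k).μ ω ≠ 0 → ∀ j a, |(P k ω j).coeff a| ≤ K k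
  pt : ∃ K : ℕ → ℝ, S.Sub K ∧ ∀ᶠ k in UF, ∀ ω, (l.sp.F k).μ ω ≠ 0 → ∀ j, |(l.pj.vv Q).v k ω j -
    (MvPolynomial.eval (fun i => S.dl (La i) k * X.v k ω i) (P k ω j) + S.dl (La j) k * X.v k ω j)| ≤ K k * S.dl 1 k

/-- `t` is the ZOOM of `s` over the label `l` of the window `c`, in the coordinates `X`, unit `e`: the point is `X`, the
windows of the types of `t` are the windows of `s` -/
structure Gz (s : MSys S M E ι) (l : Lab S) (c e : ℝ) (he : 0 < e) (X : l.sp.VV M) {E' : ℕ → ℕ}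
    (t : MSys (l.ovr e he) M E' ι) : Prop where
  pt : ∃ K : ℕ → ℝ, S.Sub K ∧ ∀ᶠ k in UF, ∀ ω : (l.sp.F k).Ω, (l.sp.F k).μ ω ≠ 0 → ∀ j,
    |t.Q.v k ω j - X.v k ω j| ≤ K k * S.dl e k
  win : ∀ (b : ℝ) (i : ι), 0 ≤ b → b ≤ 1 → PLe ((t.lf i).win b) (l.up e he ((s.lf i).win (c + e * b))) ∧
    PLe (l.up e he ((s.lf i).win (c + e * b))) ((t.lf i).win b)

/-- LEAF RELATION (helper10, helper26, helper90): the chart of the zoom in the coordinates of the frame is the chart of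
the system, exactly, on a typical event; the parameter of the zoom is the remainder of the parameter -/
def Lfr {Q : S.VV M} (lf : Leaf S Q E) {l : Lab S} {La : Fin M → ℝ} (f : Frm Q l La) (c e : ℝ) (he : 0 < e)
    {E' : ℕ → ℕ} {Q' : (l.ovr e he).VV M} (t : Leaf (l.ovr e he) Q' E') : Prop :=
  ∃ (h : t.e = lf.e) (o : ∀ k, (l k).T.Ω → Fin lf.e → ℝ),
    (∀ k (ω : (l k).T.Ω) m, lf.Y.v k ((l k).p.π ω) m = o k ω m + S.dl c k * t.Y.v k ω (Fin.cast h.symm m)) ∧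
    Typ (S := l.sp) (fun k (ω : (l k).T.Ω) => ∀ (y : Fin lf.e → ℝ) j,
      lf.F k ((l k).p.π ω) (fun m => o k ω m + S.dl c k * y m) j =
        MvPolynomial.eval (fun a => S.dl (La a) k * t.F k ω (fun m => y (Fin.cast h m)) a) (f.P k ω j) +
          S.dl (La j) k * t.F k ω (fun m => y (Fin.cast h m)) j)

/-- the zoom in the coordinates of the frame `f`, with the leaf relation -/
structure Gzf (s : MSys S M E ι) (l : Lab S) {La : Fin M → ℝ} (f : Frm s.Q l La) (c e : ℝ) (he : 0 < e) {E' : ℕ → ℕ}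
    (t : MSys (l.ovr e he) M E' ι) : Prop extends Gz s l c e he f.X t where
  lfr : ∀ i, Lfr (s.lf i) f c e he (t.lf i)

/-! ### homogeneous classes -/

/-- the cells of level `a` of the coordinates other than `z` and of level `b` of the coordinate `z` -/
def cel2 (Q : S.VV M) (z : Fin M) (a b : ℝ) : Part S := fun k =>
  fc (Setoid.ker (Q.cellv b k) ⊓ Setoid.ker (fun ω (j : {j : Fin M // j ≠ z}) => Q.cellv a k ω j.1))

/-- HOMOGENEOUS CLASS with weights `w` (nondecreasing, `w 0 = 1`), deficit `ρ` of the last coordinate (which has the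
largest weight) -/
structure Hom (M : ℕ) (Cl : MCl (M + 1)) (g r : ℕ) (w : Fin (M + 1) → ℝ) (ρ : ℝ)
    (TT : ∀ S : Sp, MSys S (M + 1) (lin g) (Fin r) → Prop) : Prop where
  cl : ∀ S s, TT S s → Cl S g r s
  ne : ∃ S s, TT S s
  im : ∀ S s, TT S s → ∀ (T : Sp) (p : Pj T S) (A : ∀ k, (T.F k).Ω → Prop) (hA : 0 < ul (T.pr A)),
    TT (Sp.im p A) (s.im p A hA)
  dg : DiagCl (lft TT)
  con : ∀ S s, TT S s → s.Con 0
  hull : ∀ S s, TT S s → volO s 0 = (M : ℝ) + 1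
  mono : Monotone w
  one : w 0 = 1
  rho : 0 < ρ
  rho1 : ρ ≤ 1
  /-- truncations -/
  trn : ∀ S s, TT S s → ∀ (e : ℝ) (he : 0 < e) (h1 : e ≤ 1), TT (S.chg S.tr e he) (s.trn e he h1)
  /-- weighted degrees: along the types the coordinate `j` is a polynomial of degree at most `w j` -/
  wd : ∀ S s, TT S s → ∀ i, ∃ G : ∀ k, (S.F k).Ω → Fin (M + 1) → MvPolynomial (Fin (s.lf i).e) ℝ,
    (∀ᶠ k in UF, ∀ ω, (S.F k).μ ω ≠ 0 → ∀ y j, (s.lf i).F k ω y j = MvPolynomial.eval y (G k ω j)) ∧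
      ∀ k ω j, ((G k ω j).totalDegree : ℝ) ≤ w j
  /-- boxes of `kappa_c` -/
  box : ∀ S s, TT S s → ∀ c : ℝ, 0 < c → w (Fin.last M) * c < 1 → ∃ (l : Lab S) (_ : Frm s.Q l (fun j => w j * c)),
    s.IsKap c l
  /-- for every label `kappa_c` and every frame the zooms are in the class -/
  zoom : ∀ S s, TT S s → ∀ c : ℝ, 0 < c → w (Fin.last M) * c < 1 → ∀ (l : Lab S) (f : Frm s.Q l (fun j => w j * c)),
    s.IsKap c l → ∀ (e : ℝ) (he : 0 < e), w (Fin.last M) * c + e ≤ 1 → ∃ t : MSys (l.ovr e he) (M + 1) (lin g) (Fin r),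
      Gzf s l f c e he t ∧ TT _ t
  /-- deficit: `h(P_a, z_b | kappa_c)` -/
  num : ∀ S s, TT S s → ∀ c b a : ℝ, 0 ≤ c → w (Fin.last M) * c < 1 → w (Fin.last M) * c ≤ b → b ≤ a → a ≤ 1 →
    ∀ l : Lab S, s.IsKap c l →
    Tendsto (fun k => h ((l k).p.map (cel2 s.Q (Fin.last M) a b k)) (l k).v / (S.F k).n) UF
      (𝓝 (∑ j : Fin M, (a - w j.castSucc * c) + (1 - ρ) * (b - w (Fin.last M) * c)))

/-- number of coordinates of weight one -/
def nd1 {M : ℕ} (w : Fin M → ℝ) : ℕ := by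
  classical exact (univ.filter fun j => w j = 1).card

/-! ### the frozen statements -/

variable (DK CL CC : ∀ (M : ℕ), ℕ → MCl M)

/-- the truncations of the members of a homogeneous class with `k` weights one are systems of the class `(D_k)` -/
def DUP (M : ℕ) : Prop := ∀ (Cl : MCl (M + 1)) (g r : ℕ) (w : Fin (M + 1) → ℝ) (ρ : ℝ) TT, Hom M Cl g r w ρ TT →
  ∀ S s, TT S s → ∀ (e : ℝ) (he : 0 < e) (h1 : e ≤ 1), w (Fin.last M) * e < 1 →
    DK (M + 1) (nd1 w) (S.chg S.tr e he) g r (s.trn e he h1)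

/-- homogeneous classes in `(D_k)` have at least `k` weights one -/
def DLOW (M : ℕ) : Prop := ∀ (k g r : ℕ) (w : Fin (M + 1) → ℝ) (ρ : ℝ) TT, Hom M (DK (M + 1) k) g r w ρ TT → k ≤ nd1 w

/-- THEOREM BLOCK: `k ≥ 2` weights one -/
def BLK (M : ℕ) : Prop := (∀ m, m < M + 1 → ST m) → ∀ (Cl : MCl (M + 1)) (g r : ℕ) (w : Fin (M + 1) → ℝ) (ρ : ℝ) TT,
  Hom M Cl g r w ρ TT → 2 ≤ nd1 w → STO (M + 1) (DK (M + 1) (nd1 w + 1)) → False

/-- one weight one: the lowest weight is an integer `K ≥ 2`, and `STO` for the class `CL (K - 2)` is wrong -/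
def BLK1 (M : ℕ) : Prop := (∀ m, m < M + 2 → ST m) → ∀ (Cl : MCl (M + 2)) (g r : ℕ) (w : Fin (M + 2) → ℝ) (ρ : ℝ) TT,
  Hom (M + 1) Cl g r w ρ TT → nd1 w = 1 → STO (M + 2) (DK (M + 2) 2) →
    ∃ K : ℕ, 2 ≤ K ∧ w 1 = K ∧ ¬ STO (M + 2) (CL (M + 2) (K - 2))

/-- (6.1): homogeneous classes in `CC k` with one weight one have lowest weight at most `k + 1` -/
def LOW (M : ℕ) : Prop := ∀ (k g r : ℕ) (w : Fin (M + 2) → ℝ) (ρ : ℝ) TT, Hom (M + 1) (CC (M + 2) k) g r w ρ TT →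
  nd1 w = 1 → w 1 ≤ k + 1

end

end Pool.Agent.Helper36.AM
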