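import Pool.Agent.Helper36.AM.St
import Pool.Agent.Helper26.MT.Zf
import Pool.Agent.Helper3.LF.Spd

/-! ALL DIMENSIONS: forms of rows. Polynomials of bounded degree which are known to a label and typically bounded near
the point give an admissible form. -/

set_option autoImplicit false

namespace Pool.Agent.Helper36.AM

open Finset Filter Topology Matrix MvPolynomial Pool.Agent.Helper69.RK Pool.Agent.Helper31.EC Pool.Agent.Helper31.EC.Sp
open Pool.Agent.Helper40.EL Pool.Agent.Helper89.LX Pool.Agent.Helper3.LF Pool.Agent.Helper84.MT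
open Pool.Agent.Helper95.LF (PdM dv_add)

noncomputable section

variable {M D N : ℕ}

/-- the vector of the coefficients -/
def cfs (D : ℕ) (q : MvPolynomial (Fin M) ℝ) : Mon M D → ℝ := fun a => q.coeff a.ex

theorem pol_cfs (q : MvPolynomial (Fin M) ℝ) (hq : q.totalDegree ≤ D) : pol (cfs D q) = q := by
  obtain ⟨c, rfl⟩ := exists_pol q hq
  have h : cfs D (pol c) = c := funext fun a => coeff_pol c a
  rw [h]

/-- the form of the rows `p` -/
def rwm (D : ℕ) (p : Fin N → MvPolynomial (Fin M) ℝ) : Matrix (Mon M D) (Mon M D) ℝ :=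
  1 + ∑ j, Matrix.vecMulVec (cfs D (p j)) (cfs D (p j))

theorem vmv_qf {ι : Type} [Fintype ι] (c x : ι → ℝ) : x ⬝ᵥ (Matrix.vecMulVec c c *ᵥ x) = (c ⬝ᵥ x) ^ 2 := by
  rw [Matrix.vecMulVec_mulVec]
  rw [show MulOpposite.op (c ⬝ᵥ x) • c = (c ⬝ᵥ x) • c from by
    funext i; simp [mul_comm]]
  rw [dotProduct_smul, smul_eq_mul, dotProduct_comm x, pow_two]

theorem rwm_qf (p : Fin N → MvPolynomial (Fin M) ℝ) (x : Mon M D → ℝ) :
    x ⬝ᵥ (rwm D p *ᵥ x) = x ⬝ᵥ x + ∑ j, (cfs D (p j) ⬝ᵥ x) ^ 2 := by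
  unfold rwm
  rw [dv_add, Matrix.one_mulVec, dv_sum]
  congr 1
  exact Finset.sum_congr rfl fun j _ => vmv_qf _ _

theorem rwm_symm (p : Fin N → MvPolynomial (Fin M) ℝ) : (rwm D p).IsSymm := by
  unfold rwm
  apply Matrix.isSymm_one.add
  unfold Matrix.IsSymm
  rw [Matrix.transpose_sum]
  exact Finset.sum_congr rfl fun j _ => Matrix.transpose_vecMulVec _ _

theorem rwm_ge (p : Fin N → MvPolynomial (Fin M) ℝ) (x : Mon M D → ℝ) : x ⬝ᵥ x ≤ x ⬝ᵥ (rwm D p *ᵥ x) := by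
  rw [rwm_qf]
  have := Finset.sum_nonneg fun (j : Fin N) (_ : j ∈ Finset.univ) => sq_nonneg (cfs D (p j) ⬝ᵥ x)
  linarith

theorem rwm_pd (p : Fin N → MvPolynomial (Fin M) ℝ) : PdM (rwm D p) := pdM_of_one_le (rwm_symm p) (rwm_ge p)

theorem rwm_phi (p : Fin N → MvPolynomial (Fin M) ℝ) (hp : ∀ i, (p i).totalDegree ≤ D) (r B : ℝ) (P : Fin M → ℝ)
    (h : ∀ i (j : Fin M → Fin (D + 1)), |eval (nodp D P r j) (p i)| ≤ B) :
    phi r (rwm D p) P ≤ phi r (1 : Matrix (Mon M D) (Mon M D) ℝ) P + nn M D * (N * B ^ 2) := by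
  unfold phi
  have h1 : ∀ j : Fin M → Fin (D + 1), vv (D := D) (nodp D P r j) ⬝ᵥ (rwm D p *ᵥ vv (nodp D P r j)) ≤
      vv (D := D) (nodp D P r j) ⬝ᵥ ((1 : Matrix (Mon M D) (Mon M D) ℝ) *ᵥ vv (nodp D P r j)) + N * B ^ 2 := by
    intro j
    rw [rwm_qf, Matrix.one_mulVec]
    have h2 : ∀ i ∈ (Finset.univ : Finset (Fin N)), (cfs D (p i) ⬝ᵥ vv (nodp D P r j)) ^ 2 ≤ B ^ 2 := by
      intro i _
      rw [← eval_pol, pol_cfs _ (hp i), ← sq_abs]
      exact pow_le_pow_left₀ (abs_nonneg _) (h i j) 2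
    have h3 := Finset.sum_le_card_nsmul _ _ _ h2
    rw [Finset.card_univ, Fintype.card_fin, nsmul_eq_mul] at h3
    linarith
  refine (Finset.sum_le_sum fun j _ => h1 j).trans (le_of_eq ?_)
  rw [Finset.sum_add_distrib, Finset.sum_const, nsmul_eq_mul, card_nodes]

theorem nodp_zero (P : Fin M → ℝ) (r : ℝ) : nodp D P r (fun _ => 0) = P := by
  funext i
  unfold nodp nod
  simp

theorem rwm_Jq (p : Fin N → MvPolynomial (Fin M) ℝ) (hp : ∀ i, (p i).totalDegree ≤ D) (r : ℝ) (P e : Fin M → ℝ) :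
    ∑ i, (eval P (dir e (p i))) ^ 2 ≤ e ⬝ᵥ (Jq r (rwm D p) P *ᵥ e) := by
  rw [Jq_qf]
  have h0 : ∀ j : Fin M → Fin (D + 1), 0 ≤ (Wq M D (nodp D P r j) *ᵥ e) ⬝ᵥ
      (rwm D p *ᵥ (Wq M D (nodp D P r j) *ᵥ e)) := fun j => (rwm_pd p).nonneg _
  refine le_trans ?_ (Finset.single_le_sum (f := fun j : Fin M → Fin (D + 1) => (Wq M D (nodp D P r j) *ᵥ e) ⬝ᵥ
      (rwm D p *ᵥ (Wq M D (nodp D P r j) *ᵥ e))) (fun j _ => h0 j) (Finset.mem_univ (fun _ => 0)))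
  show _ ≤ (Wq M D (nodp D P r (fun _ => 0)) *ᵥ e) ⬝ᵥ (rwm D p *ᵥ (Wq M D (nodp D P r (fun _ => 0)) *ᵥ e))
  rw [nodp_zero, rwm_qf]
  have h1 : ∑ i, (eval P (dir e (p i))) ^ 2 = ∑ i, (cfs D (p i) ⬝ᵥ (Wq M D P *ᵥ e)) ^ 2 := by
    refine Finset.sum_congr rfl fun i _ => ?_
    rw [← eval_dir, pol_cfs _ (hp i)]
  rw [h1]
  have := dot_self_nonneg (Wq M D P *ᵥ e)
  linarith

/-! ### labels with the form of rows -/

variable {S : Sp}

/-- the rows are functions of the label at the index `k` -/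
def Ms (l : Lab S) (p : ∀ k, (l k).T.Ω → Fin N → MvPolynomial (Fin M) ℝ) (k : ℕ) : Prop :=
  ∀ ω ω', (l k).T.μ ω ≠ 0 → (l k).T.μ ω' ≠ 0 → (l k).V ω ω' → (l k).T.Z ω ω' → p k ω = p k ω'

open Classical in
/-- rows, zero where they are not functions of the label -/
def pct (l : Lab S) (p : ∀ k, (l k).T.Ω → Fin N → MvPolynomial (Fin M) ℝ) (k : ℕ) (ω : (l k).T.Ω) :
    Fin N → MvPolynomial (Fin M) ℝ := if Ms l p k then p k ω else fun _ => 0

/-- the label with the form of the rows `p` -/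
def rwx (l : Lab S) (D : ℕ) (C : ℕ → ℝ) (p : ∀ k, (l k).T.Ω → Fin N → MvPolynomial (Fin M) ℝ) :
    ∀ k, FD (S.F k) (Mon M D) := fun k => mkFD (l k) (fun ω => capd (C k) (rwm D (pct l p k ω))) (by
      intro ω ω' h1 h2 h3 h4
      have h5 : pct l p k ω = pct l p k ω' := by
        unfold pct
        by_cases h : Ms l p k
        · rw [if_pos h, if_pos h, h ω ω' h1 h2 h3 h4]
        · rw [if_neg h, if_neg h]
      rw [h5])

theorem rwx_l (l : Lab S) (D : ℕ) (C : ℕ → ℝ) (p : ∀ k, (l k).T.Ω → Fin N → MvPolynomial (Fin M) ℝ) :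
    (fun k => (rwx l D C p k).l) = l := rfl

/-- the bound near the point -/
def RwB (l : Lab S) (D : ℕ) (Q : S.VV M) (p : ∀ k, (l k).T.Ω → Fin N → MvPolynomial (Fin M) ℝ) (K : ℕ → ℝ) (k : ℕ)
    (ω : (l k).T.Ω) : Prop :=
  ∀ i (j : Fin M → Fin (D + 1)), |eval (nodp D (Q.v k ((l k).p.π ω)) (S.dl 1 k) j) (p k ω i)| ≤ K k

theorem rwx_good (l : Lab S) (Q : S.VV M) (p : ∀ k, (l k).T.Ω → Fin N → MvPolynomial (Fin M) ℝ)
    (hd : ∀ k ω i, (p k ω i).totalDegree ≤ D) (hm : ∀ᶠ k in UF, Ms l p k) {K : ℕ → ℝ} (hK : S.Sub K) :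
    ∃ K' : ℕ → ℝ, S.Sub K' ∧ ∀ᶠ k in UF, ∀ ω, (l k).T.μ ω ≠ 0 →
      ((gaq Q D).φ k ((l k).p.π ω) 1 ≤ K' k) ∧ (RwB l D Q p K k ω →
      (rwx l D (gaq Q D).cp p k).g ω = rwm D (p k ω) ∧
      (gaq Q D).φ k ((l k).p.π ω) ((rwx l D (gaq Q D).cp p k).g ω) ≤ K' k) := by
  obtain ⟨K0, hK0, hone⟩ := (gaq Q D).one
  have hK' : S.Sub (fun k => K0 k + nn M D * (N * (K k) ^ 2)) :=
    hK0.add ((S.Sub_const (by have := nn_one M D; linarith)).mul ((S.Sub_const (Nat.cast_nonneg _)).mul (Sub_pow' hK 2)))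
  refine ⟨_, hK', ?_⟩
  filter_upwards [hm, hone, (gaq Q D).cap, hK'.eventually_le one_pos] with k k1 k2 k3 k4 ω hω
  have h0 := k2 _ ((l k).p.supp ω hω)
  have hnn : 0 ≤ nn M D * (N * (K k) ^ 2) := by
    have := nn_one M D
    positivity
  refine ⟨by linarith, fun hB => ?_⟩
  have h1 : phi (S.dl 1 k) (rwm D (p k ω)) (Q.v k ((l k).p.π ω)) ≤ K0 k + nn M D * (N * (K k) ^ 2) := by
    refine (rwm_phi (p k ω) (hd k ω) _ (K k) _ (fun i j => hB i j)).trans ?_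
    have h2 : phi (S.dl 1 k) (1 : Matrix (Mon M D) (Mon M D) ℝ) (Q.v k ((l k).p.π ω)) ≤ K0 k := h0
    linarith
  have h2 : Cpd ((gaq Q D).cp k) (rwm D (p k ω)) := by
    refine ⟨rwm_symm _, rwm_ge _, fun v => ?_⟩
    refine (k3 _ ((l k).p.supp ω hω) _ (rwm_pd _) v).trans ?_
    apply mul_le_mul_of_nonneg_right _ (dot_self_nonneg v)
    unfold Gau.cp
    rw [add_mul, Real.rpow_add (by norm_num)]
    apply mul_le_mul_of_nonneg_left _ (by positivity)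
    have g3 : (gaq Q D).φ k ((l k).p.π ω) (rwm D (p k ω)) ≤ K0 k + nn M D * (N * (K k) ^ 2) := h1
    linarith
  have h3 : (rwx l D (gaq Q D).cp p k).g ω = rwm D (p k ω) := by
    show capd ((gaq Q D).cp k) (rwm D (pct l p k ω)) = _
    have h4 : pct l p k ω = p k ω := by
      unfold pct
      rw [if_pos k1]
    rw [h4]
    exact capd_eq h2
  exact ⟨h3, by rw [h3]; exact h1⟩

/-- the form of typically bounded rows is admissible -/
theorem rwx_Adf {κ : Type} [Finite κ] {A : κ → Part S} {l : Lab S} (hl : l.DMf A) (Q : S.VV M)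
    (p : ∀ k, (l k).T.Ω → Fin N → MvPolynomial (Fin M) ℝ) (hd : ∀ k ω i, (p k ω i).totalDegree ≤ D)
    (hm : ∀ᶠ k in UF, Ms l p k) {K : ℕ → ℝ} (hK : S.Sub K) (hT : Sp.Typ (S := l.sp) (fun k ω => RwB l D Q p K k ω)) :
    (gaq Q D).Adf A (rwx l D (gaq Q D).cp p) := by
  obtain ⟨K', hK', h1⟩ := rwx_good l Q p hd hm hK
  apply Pool.Agent.Helper84.MT.adf_mk (Φ := gaq Q D) (rwx l D (gaq Q D).cp p) hl (fun k => rfl)
    (Eventually.of_forall fun k ω _ => capd_Cpd ((gaq Q D).one_le_cp k) _) K' hK'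
  refine typ_mono hT ?_
  filter_upwards [h1] with k hk ω hω hB
  exact ((hk ω hω).2 hB).2

end

end Pool.Agent.Helper36.AM
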