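import Pool.Agent.Helper81.MI.Pol
import Pool.Agent.Helper84.MT.Vol

/-! ALL DIMENSIONS: inverses of triangular polynomial charts `x_j = P_j(u_1, .., u_(j-1)) + u_j`: polynomials, values,
gradients. -/

set_option autoImplicit false

namespace Pool.Agent.Helper36.AM

open Finset MvPolynomial Matrix Pool.Agent.Helper81.MI Pool.Agent.Helper84.MT

noncomputable section

variable {M : ℕ}

/-- the inverse of a triangular chart, by iteration -/
def ivt (P : Fin M → MvPolynomial (Fin M) ℝ) : ℕ → Fin M → MvPolynomial (Fin M) ℝ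
  | 0 => fun _ => 0
  | n + 1 => fun j => X j - bind₁ (ivt P n) (P j)

/-- the inverse of a triangular chart -/
def inv (P : Fin M → MvPolynomial (Fin M) ℝ) : Fin M → MvPolynomial (Fin M) ℝ := ivt P M

theorem bind_congr {u v : Fin M → MvPolynomial (Fin M) ℝ} (p : MvPolynomial (Fin M) ℝ)
    (h : ∀ i ∈ p.vars, u i = v i) : bind₁ u p = bind₁ v p := by
  apply MvPolynomial.hom_congr_vars (f₁ := (bind₁ u).toRingHom) (f₂ := (bind₁ v).toRingHom) _ _ rfl
  · ext a
    simp
  · intro i hi _
    simp only [AlgHom.toRingHom_eq_coe, RingHom.coe_coe, bind₁_X_right]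
    exact h i hi

theorem eval_congr {u v : Fin M → ℝ} (p : MvPolynomial (Fin M) ℝ) (h : ∀ i ∈ p.vars, u i = v i) :
    eval u p = eval v p := by
  apply MvPolynomial.hom_congr_vars (f₁ := eval u) (f₂ := eval v) _ _ rfl
  · ext a
    simp
  · intro i hi _
    rw [eval_X, eval_X]
    exact h i hi

variable {P : Fin M → MvPolynomial (Fin M) ℝ}

theorem ivt_stab (tri : ∀ j, ∀ i ∈ (P j).vars, i < j) : ∀ (n : ℕ) (j : Fin M), (j : ℕ) < n →
    ivt P (n + 1) j = ivt P n j := by
  intro n
  induction n with
  | zero => intro j hj; omega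
  | succ n ih =>
    intro j hj
    show X j - bind₁ (ivt P (n + 1)) (P j) = X j - bind₁ (ivt P n) (P j)
    rw [bind_congr (P j) (fun i hi => ih i (by
      have h1 : (i : ℕ) < j := tri j i hi
      omega))]

theorem inv_eq (tri : ∀ j, ∀ i ∈ (P j).vars, i < j) (j : Fin M) : inv P j = X j - bind₁ (inv P) (P j) :=
  (ivt_stab tri M j j.2).symm

theorem ivt_deg {κ : ℕ} (hκ : ∀ j, (P j).totalDegree ≤ κ) (n : ℕ) (j : Fin M) :
    (ivt P n j).totalDegree ≤ (κ + 1) ^ n := by
  induction n generalizing j with
  | zero =>
    show (0 : MvPolynomial (Fin M) ℝ).totalDegree ≤ _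
    rw [totalDegree_zero]
    exact Nat.zero_le _
  | succ n ih =>
    show (X j - bind₁ (ivt P n) (P j)).totalDegree ≤ _
    refine (totalDegree_sub _ _).trans (max_le ?_ ?_)
    · rw [totalDegree_X]
      exact Nat.one_le_pow _ _ (Nat.succ_pos _)
    · refine (totalDegree_bind (P j) (hκ j) _ (fun i => ih i)).trans ?_
      rw [pow_succ, mul_comm]
      exact Nat.mul_le_mul_left _ (Nat.le_succ _)

theorem inv_deg {κ : ℕ} (hκ : ∀ j, (P j).totalDegree ≤ κ) (j : Fin M) : (inv P j).totalDegree ≤ (κ + 1) ^ M :=
  ivt_deg hκ M j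

theorem inv_eval (tri : ∀ j, ∀ i ∈ (P j).vars, i < j) (x : Fin M → ℝ) (j : Fin M) :
    eval x (inv P j) = x j - eval (fun i => eval x (inv P i)) (P j) := by
  conv_lhs => rw [inv_eq tri j]
  rw [map_sub, eval_X, eval_bind]

/-- values of the inverse -/
theorem inv_val (tri : ∀ j, ∀ i ∈ (P j).vars, i < j) {κ : ℕ} (hκ : ∀ j, (P j).totalDegree ≤ κ) {K B ε L : ℝ}
    (hK : 0 ≤ K) (hc : ∀ j a, |(P j).coeff a| ≤ K) (hB : 0 ≤ B) (hε : 0 ≤ ε)
    (hL : L = ((κ : ℝ) + 1) ^ M * K * (κ * (B + 1) ^ κ)) (hs : (1 + L) ^ M * ε ≤ 1) (U x : Fin M → ℝ)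
    (hU : ∀ i, |U i| ≤ B) (hx : ∀ j, |x j - (eval U (P j) + U j)| ≤ ε) (j : Fin M) :
    |eval x (inv P j) - U j| ≤ (1 + L) ^ M * ε := by
  classical
  have hL0 : 0 ≤ L := by rw [hL]; positivity
  have h1L : 1 ≤ 1 + L := by linarith
  have key : ∀ n : ℕ, ∀ j : Fin M, (j : ℕ) < n → |eval x (inv P j) - U j| ≤ (1 + L) ^ n * ε := by
    intro n
    induction n with
    | zero => intro j hj; omega
    | succ n ih =>
      intro j hj
      rcases Nat.lt_or_ge n M with hn | hn
      · have hle : (1 + L) ^ n * ε ≤ 1 := le_trans (mul_le_mul_of_nonneg_right (pow_le_pow_right₀ h1L hn.le) hε) hs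
        rw [inv_eval tri]
        have e1 : eval (fun i => eval x (inv P i)) (P j) =
            eval (fun i => if i < j then eval x (inv P i) else U i) (P j) := by
          apply eval_congr
          intro i hi
          rw [if_pos (tri j i hi)]
        rw [e1]
        have h2 := eval_sub_le (P j) (hκ j) (fun i => if i < j then eval x (inv P i) else U i) U (B + 1) K
          ((1 + L) ^ n * ε) (by linarith) hK (by positivity) (fun i => by
            by_cases h : i < j
            · simp only [if_pos h]
              have h3 := ih i (by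
                have : (i : ℕ) < j := h
                omega)
              have h4 : |eval x (inv P i)| ≤ |eval x (inv P i) - U i| + |U i| := by
                have := abs_add_le (eval x (inv P i) - U i) (U i)
                rwa [sub_add_cancel] at this
              have h5 := hU i
              linarith
            · simp only [if_neg h]
              have h5 := hU i
              linarith) (fun i => by
            have h5 := hU i
            linarith) (fun i => by
            by_cases h : i < j
            · simp only [if_pos h]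
              exact ih i (by
                have : (i : ℕ) < j := h
                omega)
            · simp only [if_neg h]
              rw [sub_self, abs_zero]
              positivity) (fun s => hc j s)
        rw [← hL] at h2
        have h3 : x j - eval (fun i => if i < j then eval x (inv P i) else U i) (P j) - U j =
            (x j - (eval U (P j) + U j)) - (eval (fun i => if i < j then eval x (inv P i) else U i) (P j) -
              eval U (P j)) := by ring
        rw [h3]
        refine (abs_sub _ _).trans ?_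
        have h4 := hx j
        have h6 : ε ≤ (1 + L) ^ n * ε := le_mul_of_one_le_left hε (one_le_pow₀ h1L)
        calc |x j - (eval U (P j) + U j)| + |eval (fun i => if i < j then eval x (inv P i) else U i) (P j) -
              eval U (P j)| ≤ (1 + L) ^ n * ε + L * ((1 + L) ^ n * ε) := add_le_add (h4.trans h6) h2
          _ = (1 + L) ^ (n + 1) * ε := by ring
      · have h1 := ih j (by have := j.2; omega)
        refine h1.trans (mul_le_mul_of_nonneg_right (pow_le_pow_right₀ h1L (Nat.le_succ n)) hε)
  exact key M j j.2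

/-! ### gradients -/

/-- chain rule -/
theorem pderiv_bind (u : Fin M → MvPolynomial (Fin M) ℝ) (a : Fin M) (p : MvPolynomial (Fin M) ℝ) :
    pderiv a (bind₁ u p) = ∑ i, bind₁ u (pderiv i p) * pderiv a (u i) := by
  induction p using MvPolynomial.induction_on with
  | C c => simp
  | add p q hp hq =>
    simp only [map_add, hp, hq, add_mul, Finset.sum_add_distrib]
  | mul_X p n hp =>
    simp only [map_mul, bind₁_X_right, Derivation.leibniz, smul_eq_mul, hp, map_add, pderiv_X]
    rw [Finset.mul_sum]
    have h1 : ∀ i : Fin M, (bind₁ u p * bind₁ u (Pi.single (M := fun _ => MvPolynomial (Fin M) ℝ) i 1 n) +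
        u n * bind₁ u (pderiv i p)) * pderiv a (u i) =
        bind₁ u p * (bind₁ u (Pi.single (M := fun _ => MvPolynomial (Fin M) ℝ) i 1 n) * pderiv a (u i)) +
          u n * (bind₁ u (pderiv i p) * pderiv a (u i)) := fun i => by ring
    rw [Finset.sum_congr rfl fun i _ => h1 i, Finset.sum_add_distrib, ← Finset.mul_sum]
    congr 2
    rw [Finset.sum_eq_single n]
    · rw [Pi.single_eq_same, map_one, one_mul]
    · intro i _ hi
      rw [Pi.single_eq_of_ne (fun h => hi h.symm), map_zero, zero_mul, mul_zero]
    · intro h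
      exact absurd (Finset.mem_univ n) h

theorem eval_dir' (v : Fin M → ℝ) (x : Fin M → ℝ) (q : MvPolynomial (Fin M) ℝ) :
    eval x (dir v q) = ∑ a, v a * eval x (pderiv a q) := by
  unfold dir
  rw [map_sum]
  exact Finset.sum_congr rfl fun a _ => by rw [map_mul, eval_C]

/-- the gradient of the inverse -/
theorem inv_dir (tri : ∀ j, ∀ i ∈ (P j).vars, i < j) (x v : Fin M → ℝ) (j : Fin M) :
    v j = eval x (dir v (inv P j)) +
      ∑ i, eval (fun i => eval x (inv P i)) (pderiv i (P j)) * eval x (dir v (inv P i)) := by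
  classical
  have h0 : ∀ a, pderiv a (inv P j) = pderiv a (X j) - ∑ i, bind₁ (inv P) (pderiv i (P j)) * pderiv a (inv P i) := by
    intro a
    conv_lhs => rw [inv_eq tri j]
    rw [map_sub, pderiv_bind]
  rw [eval_dir' v x (inv P j)]
  have h1 : ∀ a, v a * eval x (pderiv a (inv P j)) = v a * eval x (pderiv a (X j)) -
      ∑ i, eval (fun i => eval x (inv P i)) (pderiv i (P j)) * (v a * eval x (pderiv a (inv P i))) := by
    intro a
    rw [h0 a, map_sub, map_sum, mul_sub, Finset.mul_sum]
    congr 1
    refine Finset.sum_congr rfl fun i _ => ?_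
    rw [map_mul, eval_bind]
    ring
  rw [Finset.sum_congr rfl fun a _ => h1 a, Finset.sum_sub_distrib, Finset.sum_comm]
  have h2 : ∑ a, v a * eval x (pderiv a (X j : MvPolynomial (Fin M) ℝ)) = v j := by
    rw [Finset.sum_eq_single j]
    · rw [pderiv_X_self, map_one, mul_one]
    · intro a _ ha
      rw [pderiv_X_of_ne (fun h => ha h.symm), map_zero, mul_zero]
    · intro h
      exact absurd (Finset.mem_univ j) h
  rw [h2]
  have h3 : ∀ i, ∑ a, eval (fun i => eval x (inv P i)) (pderiv i (P j)) * (v a * eval x (pderiv a (inv P i))) =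
      eval (fun i => eval x (inv P i)) (pderiv i (P j)) * eval x (dir v (inv P i)) := by
    intro i
    rw [eval_dir', Finset.mul_sum]
  rw [Finset.sum_congr rfl fun i _ => h3 i]
  ring

/-- bound of the gradient -/
theorem pderiv_le {p : ℕ} (q : MvPolynomial (Fin M) ℝ) (hq : q.totalDegree ≤ p) (x : Fin M → ℝ) (R K : ℝ) (hR : 1 ≤ R)
    (hK : 0 ≤ K) (hx : ∀ i, |x i| ≤ R) (hc : ∀ s, |q.coeff s| ≤ K) (i : Fin M) :
    |eval x (pderiv i q)| ≤ ((p : ℝ) + 1) ^ M * (K * (p * R ^ p)) := by
  classical
  have hR0 : 0 ≤ R := zero_le_one.trans hR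
  have h0 : eval x (pderiv i q) = ∑ s ∈ q.support, q.coeff s * (s i : ℝ) *
      ((s - Finsupp.single i 1).prod fun n e => x n ^ e) := by
    conv_lhs => rw [q.as_sum]
    rw [map_sum, map_sum]
    refine Finset.sum_congr rfl fun s _ => ?_
    rw [pderiv_monomial, eval_monomial]
  rw [h0]
  calc |∑ s ∈ q.support, q.coeff s * (s i : ℝ) * ((s - Finsupp.single i 1).prod fun n e => x n ^ e)|
      ≤ ∑ s ∈ q.support, |q.coeff s * (s i : ℝ) * ((s - Finsupp.single i 1).prod fun n e => x n ^ e)| :=
        Finset.abs_sum_le_sum_abs _ _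
    _ ≤ ∑ _s ∈ q.support, K * (p * R ^ p) := by
        apply Finset.sum_le_sum
        intro s hs
        have h1 : s i ≤ p := (Finset.single_le_sum (f := fun i => s i) (fun _ _ => Nat.zero_le _)
          (Finset.mem_univ i)).trans (sum_le_deg hq hs)
        have h2 : |(s - Finsupp.single i 1 : Fin M →₀ ℕ).prod fun n e => x n ^ e| ≤ R ^ p := by
          have h3 := prod_pow_le (fun n => (s - Finsupp.single i 1 : Fin M →₀ ℕ) n) x R hR hx (s - Finsupp.single i 1 : Fin M →₀ ℕ).support
          refine h3.trans (pow_le_pow_right₀ hR ?_)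
          refine (Finset.sum_le_sum_of_subset (Finset.subset_univ _)).trans ?_
          refine (Finset.sum_le_sum fun n _ => ?_).trans (sum_le_deg hq hs)
          rw [Finsupp.tsub_apply]
          exact Nat.sub_le _ _
        rw [abs_mul, abs_mul, mul_assoc, Nat.abs_cast]
        apply mul_le_mul (hc s) _ (by positivity) hK
        apply mul_le_mul _ h2 (abs_nonneg _) (Nat.cast_nonneg _)
        exact_mod_cast h1
    _ = q.support.card * (K * (p * R ^ p)) := by rw [Finset.sum_const, nsmul_eq_mul]
    _ ≤ ((p + 1) ^ M : ℝ) * (K * (p * R ^ p)) := by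
        apply mul_le_mul_of_nonneg_right _ (by positivity)
        exact_mod_cast card_support_le q hq

end

end Pool.Agent.Helper36.AM
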