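import Pool.Agent.Helper36.AM.DK
import Pool.Agent.Helper36.AM.Inv

/-! ALL DIMENSIONS: homogeneous classes which consist of systems of the class `(D_k)` have at least `k` weights one. -/

set_option autoImplicit false

namespace Pool.Agent.Helper36.AM

open Finset Filter Topology Matrix MvPolynomial Pool.Agent.Helper69.RK Pool.Agent.Helper31.EC Pool.Agent.Helper31.EC.Sp
open Pool.Agent.Helper40.EL Pool.Agent.Helper89.LX Pool.Agent.Helper3.LF Pool.Agent.Helper84.MT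

noncomputable section

/-- linear algebra: a subspace of dimension larger than the number of slow rows contains a fast direction -/
theorem fin_dim {m k : ℕ} {P : Fin m → MvPolynomial (Fin m) ℝ} (tri : ∀ j, ∀ i ∈ (P j).vars, i < j) (x d : Fin m → ℝ)
    (hd : ∀ i, 0 < d i) (J : Finset (Fin m)) (hJ : J.card < k) {ds : ℝ} (hds0 : 0 ≤ ds) (hds : ∀ i, i ∉ J → d i ≤ ds)
    (v : Fin k → Fin m → ℝ) (orth : ∀ i j, v i ⬝ᵥ v j = if i = j then 1 else 0) {B L : ℝ} (hB0 : 0 ≤ B) (hL0 : 0 ≤ L)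
    (hB : ∀ a, ∑ i, (eval x (dir (v a) (C (d i)⁻¹ * inv P i))) ^ 2 ≤ B)
    (hL : ∀ i j, |eval (fun i => eval x (inv P i)) (pderiv i (P j))| ≤ L) :
    1 ≤ m * ((1 + m * L) ^ 2 * ds ^ 2 * (k * B)) := by
  classical
  -- the rows as linear functions of the coefficients
  have hdir : ∀ (u : Fin m → ℝ) (i : Fin m), eval x (dir u (C (d i)⁻¹ * inv P i)) =
      (d i)⁻¹ * eval x (dir u (inv P i)) := by
    intro u i
    rw [eval_dir', eval_dir', Finset.mul_sum]
    refine Finset.sum_congr rfl fun a _ => ?_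
    rw [pderiv_C_mul, map_mul, eval_C]
    ring
  obtain ⟨r, hr⟩ : ∃ r : Fin k → Fin m → ℝ, r = fun a i => (d i)⁻¹ * eval x (dir (v a) (inv P i)) := ⟨_, rfl⟩
  have hrB : ∀ a, ∑ i, (r a i) ^ 2 ≤ B := by
    intro a
    refine le_trans (le_of_eq (Finset.sum_congr rfl fun i _ => ?_)) (hB a)
    rw [hdir, hr]
  let f : (Fin k → ℝ) →ₗ[ℝ] (J → ℝ) :=
    { toFun := fun c i => ∑ a, c a * r a i.1
      map_add' := fun c c' => by
        funext i
        simp only [Pi.add_apply, add_mul, Finset.sum_add_distrib]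
      map_smul' := fun t c => by
        funext i
        simp only [Pi.smul_apply, smul_eq_mul, RingHom.id_apply, Finset.mul_sum, mul_assoc] }
  have hker : LinearMap.ker f ≠ ⊥ := by
    apply LinearMap.ker_ne_bot_of_finrank_lt
    rw [Module.finrank_fin_fun, Module.finrank_fintype_fun_eq_card, Fintype.card_coe]
    exact hJ
  obtain ⟨c, hc, hc0⟩ := Submodule.exists_mem_ne_zero_of_ne_bot hker
  have hcJ : ∀ i ∈ J, ∑ a, c a * r a i = 0 := by
    intro i hi
    exact congrFun (LinearMap.mem_ker.1 hc) ⟨i, hi⟩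
  obtain ⟨N, hN⟩ : ∃ N : ℝ, N = ∑ a, c a ^ 2 := ⟨_, rfl⟩
  have hN0 : 0 < N := by
    rw [hN]
    have h1 : 0 ≤ ∑ a, c a ^ 2 := Finset.sum_nonneg fun a _ => sq_nonneg _
    refine lt_of_le_of_ne h1 (fun h => hc0 ?_)
    funext a
    have h2 := (Finset.sum_eq_zero_iff_of_nonneg (fun a _ => sq_nonneg (c a))).1 h.symm a (Finset.mem_univ a)
    exact pow_eq_zero_iff (two_ne_zero) |>.1 h2
  obtain ⟨u, hu⟩ : ∃ u : Fin m → ℝ, u = fun j => ∑ a, c a * v a j := ⟨_, rfl⟩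
  have huu : ∑ j, u j ^ 2 = N := by
    have h1 : ∑ j, u j ^ 2 = ∑ a, ∑ b, c a * c b * (v a ⬝ᵥ v b) := by
      have h2 : ∀ j, u j ^ 2 = ∑ a, ∑ b, c a * c b * (v a j * v b j) := by
        intro j
        rw [hu, pow_two, Finset.sum_mul_sum]
        exact Finset.sum_congr rfl fun a _ => Finset.sum_congr rfl fun b _ => by ring
      rw [Finset.sum_congr rfl fun j _ => h2 j, Finset.sum_comm]
      refine Finset.sum_congr rfl fun a _ => ?_
      rw [Finset.sum_comm]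
      refine Finset.sum_congr rfl fun b _ => ?_
      rw [← Finset.mul_sum]
      rfl
    rw [h1, hN]
    refine Finset.sum_congr rfl fun a _ => ?_
    rw [Finset.sum_eq_single a]
    · rw [orth, if_pos rfl]
      ring
    · intro b _ hb
      rw [orth, if_neg (fun h => hb h.symm), mul_zero]
    · intro h
      exact absurd (Finset.mem_univ a) h
  obtain ⟨ρ, hρ⟩ : ∃ ρ : Fin m → ℝ, ρ = fun i => ∑ a, c a * r a i := ⟨_, rfl⟩
  have hρu : ∀ i, eval x (dir u (inv P i)) = d i * ρ i := by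
    intro i
    have h1 : eval x (dir u (inv P i)) = ∑ a, c a * eval x (dir (v a) (inv P i)) := by
      rw [eval_dir']
      have h2 : ∀ b, u b * eval x (pderiv b (inv P i)) = ∑ a, c a * (v a b * eval x (pderiv b (inv P i))) := by
        intro b
        rw [hu, Finset.sum_mul]
        exact Finset.sum_congr rfl fun a _ => by ring
      rw [Finset.sum_congr rfl fun b _ => h2 b, Finset.sum_comm]
      refine Finset.sum_congr rfl fun a _ => ?_
      rw [← Finset.mul_sum, eval_dir']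
    rw [h1, hρ]
    show _ = d i * ∑ a, c a * r a i
    rw [Finset.mul_sum]
    refine Finset.sum_congr rfl fun a _ => ?_
    rw [hr]
    have h3 := (hd i).ne'
    field_simp
  have hρ2 : ∀ i, ρ i ^ 2 ≤ N * (k * B) := by
    intro i
    have h1 := Finset.sum_mul_sq_le_sq_mul_sq Finset.univ c (fun a => r a i)
    have h2 : ∑ a, (r a i) ^ 2 ≤ k * B := by
      have h3 : ∀ a ∈ (Finset.univ : Finset (Fin k)), (r a i) ^ 2 ≤ B := by
        intro a _
        exact (Finset.single_le_sum (f := fun i => (r a i) ^ 2) (fun i _ => sq_nonneg _) (Finset.mem_univ i)).trans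
          (hrB a)
      have h4 := Finset.sum_le_card_nsmul _ _ _ h3
      rw [Finset.card_univ, Fintype.card_fin, nsmul_eq_mul] at h4
      exact h4
    rw [hρ]
    show (∑ a, c a * r a i) ^ 2 ≤ _
    rw [hN]
    exact h1.trans (mul_le_mul_of_nonneg_left h2 (Finset.sum_nonneg fun a _ => sq_nonneg _))
  obtain ⟨R, hR⟩ : ∃ R : ℝ, R = Real.sqrt (N * (k * B)) := ⟨_, rfl⟩
  have hR0 : 0 ≤ R := by rw [hR]; exact Real.sqrt_nonneg _
  have hR2 : R ^ 2 = N * (k * B) := by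
    rw [hR, Real.sq_sqrt (by positivity)]
  have hy : ∀ i, |eval x (dir u (inv P i))| ≤ ds * R := by
    intro i
    rw [hρu]
    by_cases hi : i ∈ J
    · have h1 : ρ i = 0 := by rw [hρ]; exact hcJ i hi
      rw [h1, mul_zero, abs_zero]
      positivity
    · rw [abs_mul, abs_of_pos (hd i)]
      apply mul_le_mul (hds i hi) _ (abs_nonneg _) hds0
      rw [hR]
      exact Real.abs_le_sqrt (hρ2 i)
  have huj : ∀ j, |u j| ≤ (1 + m * L) * (ds * R) := by
    intro j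
    rw [inv_dir tri x u j]
    refine (abs_add_le _ _).trans ?_
    have h1 : |∑ i, eval (fun i => eval x (inv P i)) (pderiv i (P j)) * eval x (dir u (inv P i))| ≤
        m * (L * (ds * R)) := by
      refine (Finset.abs_sum_le_sum_abs _ _).trans ?_
      have h2 : ∀ i ∈ (Finset.univ : Finset (Fin m)), |eval (fun i => eval x (inv P i)) (pderiv i (P j)) *
          eval x (dir u (inv P i))| ≤ L * (ds * R) := by
        intro i _
        rw [abs_mul]
        exact mul_le_mul (hL i j) (hy i) (abs_nonneg _) hL0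
      have h3 := Finset.sum_le_card_nsmul _ _ _ h2
      rwa [Finset.card_univ, Fintype.card_fin, nsmul_eq_mul] at h3
    have h2 := hy j
    calc |eval x (dir u (inv P j))| + |∑ i, eval (fun i => eval x (inv P i)) (pderiv i (P j)) *
          eval x (dir u (inv P i))| ≤ ds * R + m * (L * (ds * R)) := add_le_add h2 h1
      _ = (1 + m * L) * (ds * R) := by ring
  have hfin : N ≤ m * (((1 + m * L) * (ds * R)) ^ 2) := by
    rw [← huu]
    have h2 : ∀ j ∈ (Finset.univ : Finset (Fin m)), u j ^ 2 ≤ ((1 + m * L) * (ds * R)) ^ 2 := by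
      intro j _
      rw [← sq_abs (u j)]
      exact pow_le_pow_left₀ (abs_nonneg _) (huj j) 2
    have h3 := Finset.sum_le_card_nsmul _ _ _ h2
    rwa [Finset.card_univ, Fintype.card_fin, nsmul_eq_mul] at h3
  have h5 : (m : ℝ) * (((1 + m * L) * (ds * R)) ^ 2) = N * (m * ((1 + m * L) ^ 2 * ds ^ 2 * (k * B))) := by
    rw [mul_pow, mul_pow, hR2]
    ring
  rw [h5] at hfin
  by_contra hlt
  rw [not_le] at hlt
  have h6 : N * (m * ((1 + m * L) ^ 2 * ds ^ 2 * (k * B))) < N * 1 := mul_lt_mul_of_pos_left hlt hN0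
  linarith

variable {S : Sp} {M : ℕ}

/-- the degree of the charts of a frame with weights between one and `W` -/
theorem Frm.deg {Q : S.VV M} {l : Lab S} {w : Fin M → ℝ} {c W : ℝ} (hc : 0 < c) (h1 : ∀ i, 1 ≤ w i) (hW : ∀ i, w i ≤ W)
    (f : Frm Q l (fun j => w j * c)) (k : ℕ) (ω : (l.sp.F k).Ω) (j : Fin M) : (f.P k ω j).totalDegree ≤ ⌈W⌉₊ := by
  have hW0 : 0 ≤ W := zero_le_one.trans ((h1 j).trans (hW j))
  unfold MvPolynomial.totalDegree
  apply Finset.sup_le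
  intro a ha
  by_cases h0 : a = 0
  · rw [h0, Finsupp.sum_zero_index]
    exact Nat.zero_le _
  · have h2 := f.red k ω j a ha h0
    have h3 : ∑ i, (a i : ℝ) ≤ W := by
      have h4 : (∑ i, (a i : ℝ)) * c ≤ ∑ i, (a i : ℝ) * (w i * c) := by
        rw [Finset.sum_mul]
        refine Finset.sum_le_sum fun i _ => ?_
        have h5 : (0 : ℝ) ≤ a i := Nat.cast_nonneg _
        have h6 := h1 i
        nlinarith [mul_nonneg h5 hc.le]
      have h7 : (∑ i, (a i : ℝ)) * c ≤ W * c := by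
        have := mul_le_mul_of_nonneg_right (hW j) hc.le
        linarith
      exact le_of_mul_le_mul_right h7 hc
    rw [Finsupp.sum_fintype _ _ (fun _ => rfl)]
    have h8 : ((∑ i, a i : ℕ) : ℝ) ≤ ⌈W⌉₊ := by
      push_cast
      exact h3.trans (Nat.le_ceil W)
    exact_mod_cast h8

/-- the rows of a frame: the normalised coordinates as polynomials of the point -/
def Frm.row {Q : S.VV M} {l : Lab S} {La : Fin M → ℝ} (f : Frm Q l La) :
    ∀ k, (l k).T.Ω → Fin M → MvPolynomial (Fin M) ℝ := fun k ω i => C (S.dl (La i) k)⁻¹ * inv (f.P k ω) i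

theorem Frm.row_deg {Q : S.VV M} {l : Lab S} {La : Fin M → ℝ} (f : Frm Q l La) {κ : ℕ}
    (hκ : ∀ k ω j, (f.P k ω j).totalDegree ≤ κ) (k : ℕ) (ω : (l k).T.Ω) (i : Fin M) :
    (f.row k ω i).totalDegree ≤ (κ + 1) ^ M := by
  refine (totalDegree_mul _ _).trans ?_
  rw [totalDegree_C, zero_add]
  exact inv_deg (fun j => hκ k ω j) i

theorem Frm.row_ms {Q : S.VV M} {l : Lab S} {La : Fin M → ℝ} (f : Frm Q l La) : ∀ᶠ k in UF, Ms l f.row k := by
  filter_upwards [f.fn] with k hk ω ω' h1 h2 h3 h4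
  funext i
  show C (S.dl (La i) k)⁻¹ * inv (f.P k ω) i = C (S.dl (La i) k)⁻¹ * inv (f.P k ω') i
  rw [hk ω ω' h1 h2 h4 h3]

theorem Sub_L {K : ℕ → ℝ} (hK : S.Sub K) {B : ℕ → ℝ} (hB : S.Sub B) (M κ : ℕ) :
    S.Sub (fun k => ((κ : ℝ) + 1) ^ M * K k * (κ * (B k + 1) ^ κ)) :=
  ((S.Sub_const (by positivity)).mul hK).mul ((S.Sub_const (Nat.cast_nonneg _)).mul
    (Sub_pow' (hB.add (S.Sub_const zero_le_one)) κ))

/-- bounds of the rows of a frame near the point -/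
theorem Frm.row_bd {Q : S.VV M} {l : Lab S} {La : Fin M → ℝ} (f : Frm Q l La) (h0 : ∀ i, 0 ≤ La i) (h1 : ∀ i, La i ≤ 1)
    {κ : ℕ} (hκ : ∀ k ω j, (f.P k ω j).totalDegree ≤ κ) (D : ℕ) : ∃ K : ℕ → ℝ, S.Sub K ∧ ∀ᶠ k in UF,
      ∀ ω : (l k).T.Ω, (l k).T.μ ω ≠ 0 → RwB l D Q f.row K k ω ∧ ∀ i j, |eval (fun i => eval (Q.v k ((l k).p.π ω))
        (inv (f.P k ω) i)) (pderiv i (f.P k ω j))| ≤ K k := by
  obtain ⟨Kc, hKc, hc⟩ := f.bd
  obtain ⟨Kp, hKp, hp⟩ := f.pt
  obtain ⟨Kx, hKx', hx⟩ := f.X.bd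
  have hKx : S.Sub Kx := (sp_Sub l).mp hKx'
  -- constants
  obtain ⟨L, hL⟩ : ∃ L : ℕ → ℝ, L = fun k => ((κ : ℝ) + 1) ^ M * Kc k * (κ * (Kx k + 1) ^ κ) := ⟨_, rfl⟩
  have hLS : S.Sub L := by rw [hL]; exact Sub_L hKc hKx M κ
  have hE : S.Sub (fun k => (1 + L k) ^ M * (Kp k + 1)) :=
    (Sub_pow' ((S.Sub_const zero_le_one).add hLS) M).mul (hKp.add (S.Sub_const zero_le_one))
  have hK1 : S.Sub (fun k => Kx k + (1 + L k) ^ M * (Kp k + 1)) := hKx.add hE
  have hKtot : S.Sub (fun k => (Kx k + (1 + L k) ^ M * (Kp k + 1)) + L k) := hK1.add hLS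
  refine ⟨_, hKtot, ?_⟩
  filter_upwards [hc, hp, hx, hKc.1, hKp.1, hKx.1, hE.eventually_le one_pos] with k c1 c2 c3 c4 c5 c6 c7 ω hω
  have hL0 : 0 ≤ L k := by rw [hL]; positivity
  have hn := (S.F k).pos
  have hδ := S.dl_pos 1 k
  have hd1 : S.dl 1 k * 2 ^ (1 * (S.F k).n) = 1 := by
    unfold Sp.dl
    rw [← Real.rpow_add (by norm_num)]
    norm_num
  have hdi : ∀ i, S.dl (La i) k ≤ 1 := fun i => by
    rw [← S.dl_zero k]
    exact S.dl_anti (h0 i) k
  have hdi1 : ∀ i, S.dl 1 k ≤ S.dl (La i) k := fun i => S.dl_anti (h1 i) k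
  have hs : (1 + L k) ^ M * ((Kp k + 1) * S.dl 1 k) ≤ 1 := by
    rw [← mul_assoc]
    have h2 : (1 + L k) ^ M * (Kp k + 1) * S.dl 1 k ≤ 2 ^ (1 * (S.F k).n) * S.dl 1 k :=
      mul_le_mul_of_nonneg_right (by linarith) hδ.le
    rw [mul_comm] at hd1
    linarith
  -- the point of the box
  obtain ⟨U, hU⟩ : ∃ U : Fin M → ℝ, U = fun i => S.dl (La i) k * f.X.v k ω i := ⟨_, rfl⟩
  have hUx : ∀ i, |U i| ≤ S.dl (La i) k * Kx k := by
    intro i
    rw [hU]
    show |S.dl (La i) k * f.X.v k ω i| ≤ _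
    rw [abs_mul, abs_of_pos (S.dl_pos _ _)]
    exact mul_le_mul_of_nonneg_left (c3 ω hω i) (S.dl_pos _ _).le
  have hUB : ∀ i, |U i| ≤ Kx k := fun i => (hUx i).trans (mul_le_of_le_one_left c6 (hdi i))
  have hval : ∀ y : Fin M → ℝ, (∀ j, |y j - Q.v k ((l k).p.π ω) j| ≤ S.dl 1 k) → ∀ j,
      |eval y (inv (f.P k ω) j) - U j| ≤ (1 + L k) ^ M * ((Kp k + 1) * S.dl 1 k) := by
    intro y hy
    apply inv_val (f.tri k ω) (fun j => hκ k ω j) c4 (fun j a => c1 ω hω j a) c6 (by positivity) (by rw [hL]) hs U y hUB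
    intro j
    have h2 : |Q.v k ((l k).p.π ω) j - (eval U (f.P k ω j) + U j)| ≤ Kp k * S.dl 1 k := by
      rw [hU]
      exact c2 ω hω j
    have h3 : y j - (eval U (f.P k ω j) + U j) = (y j - Q.v k ((l k).p.π ω) j) +
        (Q.v k ((l k).p.π ω) j - (eval U (f.P k ω j) + U j)) := by ring
    rw [h3]
    refine (abs_add_le _ _).trans ?_
    have := hy j
    linarith
  constructor
  · intro i j
    have h2 := hval (nodp D (Q.v k ((l k).p.π ω)) (S.dl 1 k) j) (fun a => by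
      have h3 : nodp D (Q.v k ((l k).p.π ω)) (S.dl 1 k) j a - Q.v k ((l k).p.π ω) a = S.dl 1 k * nod D (j a) := by
        unfold nodp
        ring
      rw [h3, abs_mul, abs_of_pos hδ, abs_of_nonneg (nod_nonneg D _)]
      exact (mul_le_mul_of_nonneg_left (nod_le D _ (Nat.le_of_lt_succ (j a).2)) hδ.le).trans (mul_one _).le) i
    show |eval _ (C (S.dl (La i) k)⁻¹ * inv (f.P k ω) i)| ≤ _
    rw [map_mul, eval_C, abs_mul, abs_of_pos (inv_pos.2 (S.dl_pos _ _)), inv_mul_le_iff₀ (S.dl_pos _ _)]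
    have h4 : |eval (nodp D (Q.v k ((l k).p.π ω)) (S.dl 1 k) j) (inv (f.P k ω) i)| ≤
        |eval (nodp D (Q.v k ((l k).p.π ω)) (S.dl 1 k) j) (inv (f.P k ω) i) - U i| + |U i| := by
      have := abs_add_le (eval (nodp D (Q.v k ((l k).p.π ω)) (S.dl 1 k) j) (inv (f.P k ω) i) - U i) (U i)
      rwa [sub_add_cancel] at this
    have h5 : (1 + L k) ^ M * ((Kp k + 1) * S.dl 1 k) ≤ S.dl (La i) k * ((1 + L k) ^ M * (Kp k + 1)) := by
      have h6 := mul_le_mul_of_nonneg_left (hdi1 i) (show 0 ≤ (1 + L k) ^ M * (Kp k + 1) by positivity)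
      calc (1 + L k) ^ M * ((Kp k + 1) * S.dl 1 k) = (1 + L k) ^ M * (Kp k + 1) * S.dl 1 k := by ring
        _ ≤ (1 + L k) ^ M * (Kp k + 1) * S.dl (La i) k := h6
        _ = _ := by ring
    have h7 := hUx i
    have h8 : 0 ≤ S.dl (La i) k * L k := mul_nonneg (S.dl_pos _ _).le hL0
    calc |eval (nodp D (Q.v k ((l k).p.π ω)) (S.dl 1 k) j) (inv (f.P k ω) i)|
        ≤ S.dl (La i) k * ((1 + L k) ^ M * (Kp k + 1)) + S.dl (La i) k * Kx k := by linarith
      _ ≤ S.dl (La i) k * ((1 + L k) ^ M * (Kp k + 1)) + S.dl (La i) k * Kx k + S.dl (La i) k * L k := by linarith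
      _ = S.dl (La i) k * ((Kx k + (1 + L k) ^ M * (Kp k + 1)) + L k) := by ring
  · intro i j
    have h2 := hval (Q.v k ((l k).p.π ω)) (fun a => by rw [sub_self, abs_zero]; exact hδ.le)
    have h3 := pderiv_le (f.P k ω j) (hκ k ω j) (fun i => eval (Q.v k ((l k).p.π ω)) (inv (f.P k ω) i)) (Kx k + 1)
      (Kc k) (by linarith) c4 (fun a => by
        have h4 := h2 a
        have h5 := hUB a
        have h6 : |eval (Q.v k ((l k).p.π ω)) (inv (f.P k ω) a)| ≤
            |eval (Q.v k ((l k).p.π ω)) (inv (f.P k ω) a) - U a| + |U a| := by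
          have := abs_add_le (eval (Q.v k ((l k).p.π ω)) (inv (f.P k ω) a) - U a) (U a)
          rwa [sub_add_cancel] at this
        linarith) (fun a => c1 ω hω j a) i
    refine h3.trans ?_
    have h7 : ((κ : ℝ) + 1) ^ M * (Kc k * (κ * (Kx k + 1) ^ κ)) = L k := by rw [hL]; ring
    rw [h7]
    have h8 : 0 ≤ Kx k + (1 + L k) ^ M * (Kp k + 1) := by positivity
    linarith

/-- a typical event contains a point -/
theorem typ_ex {E : ∀ k, (S.F k).Ω → Prop} (h : Sp.Typ E) : ∀ᶠ k in UF, ∃ ω, (S.F k).μ ω ≠ 0 ∧ E k ω := by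
  have h1 : Tendsto (fun k => (S.F k).pb (fun ω => ¬ E k ω)) UF (𝓝 0) := h
  filter_upwards [h1.eventually (gt_mem_nhds one_pos)] with k hk
  by_contra hc
  push Not at hc
  have h2 : (S.F k).pb (fun _ => True) ≤ (S.F k).pb (fun ω => ¬ E k ω) :=
    FSp.pb_mono (S.F k) (fun ω hω _ => hc ω hω)
  have h3 : (S.F k).pb (fun _ => True) = 1 := by
    rw [← (S.F k).ms]
    unfold FSp.pb mass
    exact Finset.sum_congr rfl fun ω _ => res_pos _ _ _ trivial
  linarith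

/-- ROW DLOW -/
theorem dlow (M : ℕ) : DLOW DK M := by
  classical
  intro k g r w ρ TT h
  by_contra hk
  rw [not_le] at hk
  obtain ⟨S, s, hs⟩ := h.ne
  have hcl := h.cl S s hs
  obtain ⟨W, hWe⟩ : ∃ W, W = w (Fin.last M) := ⟨_, rfl⟩
  have h1 : ∀ i, 1 ≤ w i := fun i => by rw [← h.one]; exact h.mono (Fin.zero_le i)
  have hW : ∀ i, w i ≤ W := fun i => by rw [hWe]; exact h.mono (Fin.le_last i)
  have hW1 : 1 ≤ W := (h1 0).trans (hW 0)
  obtain ⟨c, hce⟩ : ∃ c, c = 1 / (2 * W) := ⟨_, rfl⟩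
  have hc : 0 < c := by rw [hce]; positivity
  have hWc : W * c = 1 / 2 := by rw [hce]; field_simp
  have hc1 : c ≤ 1 := by nlinarith
  obtain ⟨l, f, hl⟩ := h.box S s hs c hc (by rw [← hWe, hWc]; norm_num)
  have hκ : ∀ k ω j, (f.P k ω j).totalDegree ≤ ⌈W⌉₊ := fun k ω j => f.deg hc h1 hW k ω j
  obtain ⟨D, hD⟩ : ∃ D, D = (⌈W⌉₊ + 1) ^ (M + 1) := ⟨_, rfl⟩
  have hrd : ∀ k ω i, (f.row k ω i).totalDegree ≤ D := fun k ω i => by rw [hD]; exact f.row_deg hκ k ω i
  obtain ⟨x, hx⟩ := s.exists_can D c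
  have hud := hcl D c hc.le hc1 x hx
  obtain ⟨K, hK, hb⟩ := f.row_bd (fun i => by have := h1 i; positivity) (fun i => by
    have := mul_le_mul_of_nonneg_right (hW i) hc.le
    linarith) hκ D
  have hAd := rwx_Adf (A := s.cnd c) hl.1 s.Q f.row hrd f.row_ms hK (by
    refine typ_mono (S := l.sp) (Typ_true (S := l.sp)) ?_
    filter_upwards [hb] with n hn ω hω _
    exact (hn ω hω).1)
  have hy := UDf.low hx.1 hAd hud
  obtain ⟨ws, hws1, hws⟩ : ∃ ws : ℝ, 1 < ws ∧ ∀ j, w j ≠ 1 → ws ≤ w j := by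
    by_cases hne : (univ.filter fun j => w j ≠ 1).Nonempty
    · obtain ⟨j, hj, hmin⟩ := Finset.exists_min_image _ w hne
      refine ⟨w j, lt_of_le_of_ne (h1 j) (fun h' => (Finset.mem_filter.1 hj).2 h'.symm), fun i hi => ?_⟩
      exact hmin i (Finset.mem_filter.2 ⟨Finset.mem_univ i, hi⟩)
    · refine ⟨2, by norm_num, fun j hj => ?_⟩
      exact absurd ⟨j, Finset.mem_filter.2 ⟨Finset.mem_univ j, hj⟩⟩ hne
  obtain ⟨δ, hδ⟩ : ∃ δ, δ = (ws - 1) * c := ⟨_, rfl⟩
  have hδ0 : 0 < δ := by rw [hδ]; exact mul_pos (by linarith) hc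
  have hC : S.Sub (fun n => ((M + 1 : ℕ) : ℝ) * ((1 + ((M + 1 : ℕ) : ℝ) * K n) ^ 2 * k)) :=
    (S.Sub_const (Nat.cast_nonneg _)).mul ((Sub_pow' ((S.Sub_const zero_le_one).add
      ((S.Sub_const (Nat.cast_nonneg _)).mul hK)) 2).mul (S.Sub_const (Nat.cast_nonneg _)))
  obtain ⟨K', hK', hgood⟩ := rwx_good l s.Q f.row hrd f.row_ms hK
  have hex := typ_ex (hy (δ / 2) (by linarith))
  have hev := hex.and (hb.and (hgood.and (hK.1.and (hC.eventually_le hδ0))))
  obtain ⟨n, ⟨ω, hω, hU⟩, hb', hg', hK0, hlast⟩ := hev.exists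
  have hn := (S.F n).pos
  have hω' : (l n).T.μ ω ≠ 0 := hω
  obtain ⟨v, orth, hv⟩ := hU
  have hgω := ((hg' ω hω').2 (hb' ω hω').1).1
  have hfin := fin_dim (f.tri n ω) (s.Q.v n ((l n).p.π ω)) (fun i => S.dl (w i * c) n) (fun i => S.dl_pos _ _)
    (univ.filter fun j => w j = 1) (show (univ.filter fun j => w j = 1).card < k from hk) (S.dl_pos (ws * c) n).le
    (fun i hi => by
      apply S.dl_anti
      apply mul_le_mul_of_nonneg_right _ hc.le
      exact hws i (fun h' => hi (Finset.mem_filter.2 ⟨Finset.mem_univ i, h'⟩))) v orth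
    (B := 2 ^ (2 * (c + δ / 2) * (S.F n).n)) (by positivity) hK0 (fun a => by
      have h3 := rwm_Jq (D := D) (f.row n ω) (fun i => hrd n ω i) (S.dl 1 n) (s.Q.v n ((l n).p.π ω)) (v a)
      rw [← hgω] at h3
      exact h3.trans (hv a)) (fun i j => (hb' ω hω').2 i j)
  have e1 : (((M + 1 : ℕ) : ℝ)) * ((1 + ((M + 1 : ℕ) : ℝ) * K n) ^ 2 * (S.dl (ws * c) n) ^ 2 *
      (k * 2 ^ (2 * (c + δ / 2) * (S.F n).n))) = (((M + 1 : ℕ) : ℝ) * ((1 + ((M + 1 : ℕ) : ℝ) * K n) ^ 2 * k)) *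
        2 ^ (-(δ * (S.F n).n)) := by
    have e2 : (S.dl (ws * c) n) ^ 2 * 2 ^ (2 * (c + δ / 2) * (S.F n).n) = 2 ^ (-(δ * (S.F n).n)) := by
      unfold Sp.dl
      rw [← Real.rpow_natCast, ← Real.rpow_mul (by norm_num), ← Real.rpow_add (by norm_num)]
      congr 1
      rw [hδ]
      push_cast
      ring
    rw [← e2]
    ring
  rw [e1] at hfin
  have h4 : (((M + 1 : ℕ) : ℝ) * ((1 + ((M + 1 : ℕ) : ℝ) * K n) ^ 2 * k)) * 2 ^ (-(δ * (S.F n).n)) ≤
      (2 ^ (δ * (S.F n).n) - 2) * 2 ^ (-(δ * (S.F n).n)) :=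
    mul_le_mul_of_nonneg_right (by linarith) (by positivity)
  have h5 : (2 : ℝ) ^ (δ * (S.F n).n) * 2 ^ (-(δ * (S.F n).n)) = 1 := by
    rw [← Real.rpow_add (by norm_num)]
    norm_num
  have h6 : (0 : ℝ) < 2 ^ (-(δ * (S.F n).n)) := by positivity
  nlinarith

end

end Pool.Agent.Helper36.AM
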