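import Pool.Agent.Helper36.AM.St

/-! ALL DIMENSIONS: MAX and the list of the inputs of the induction. -/

set_option autoImplicit false

namespace Pool.Agent.Helper36.AM

open Pool.Agent.Helper31.EC Pool.Agent.Helper84.MT

noncomputable section

/-- MAX for a pair of classes: a deficient system of the class `Cl` gives a homogeneous class of systems of the class
`Cl'` (the class of the systems of `Cl` in the coordinates of frames) -/
def MX1 (M : ℕ) (Cl Cl' : MCl (M + 1)) : Prop := (∀ m, m < M + 1 → STu m) → ¬ STO (M + 1) Cl →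
  ∃ (g r : ℕ) (w : Fin (M + 1) → ℝ) (ρ : ℝ) (TT : ∀ S : Sp, MSys S (M + 1) (lin g) (Fin r) → Prop),
    Hom M Cl' g r w ρ TT

/-- MAX for the pairs of classes with the property `ok` -/
def MAX (ok : ∀ M : ℕ, MCl M → MCl M → Prop) (M : ℕ) (Cl Cl' : MCl (M + 1)) : Prop := ok (M + 1) Cl Cl' → MX1 M Cl Cl'

/-- all inputs -/
structure Inp (DK CL CC : ∀ (M : ℕ), ℕ → MCl M) : Prop where
  st0 : STu 0
  st1 : STu 1
  dgr : ∀ M, DGRu (M + 2)
  mxT : ∀ M, MX1 (M + 1) (top (M + 2)) (top (M + 2))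
  mxD : ∀ M k, MX1 (M + 1) (DK (M + 2) k) (DK (M + 2) k)
  mxC : ∀ M k, MX1 (M + 1) (CL (M + 2) k) (CC (M + 2) k)
  dlow : ∀ M, DLOW DK (M + 1)
  blk : ∀ M, BLK DK (M + 1)
  blk1 : ∀ M, (∀ m, m < M + 2 → STu m) → BLK1 DK CL M
  low : ∀ M, LOW CC M

/-- a homogeneous class for a smaller class -/
theorem Hom.cl_mono {M : ℕ} {Cl Cl' : MCl (M + 1)} {g r : ℕ} {w : Fin (M + 1) → ℝ} {ρ : ℝ}
    {TT : ∀ S : Sp, MSys S (M + 1) (lin g) (Fin r) → Prop} (hT : Hom M Cl g r w ρ TT)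
    (h : ∀ S g r s, Cl S g r s → Cl' S g r s) : Hom M Cl' g r w ρ TT :=
  { hT with cl := fun S s hs => h S g r s (hT.cl S s hs) }

end

end Pool.Agent.Helper36.AM
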