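import Pool.Agent.Helper94.FSA.Top
import Pool.Agent.Helper87.NJ.Main
import Pool.Agent.Helper17.FSA.RowA
import Pool.Agent.Helper39.FST.B
import Pool.Agent.Helper15.FST.Rc
import Pool.Agent.Helper62.FST.Row
import Pool.Agent.Helper69.FST.Lev
import Pool.Agent.Helper60.FST.Lvf
import Pool.Agent.Helper46.FST.Trv
import Pool.Agent.Helper13.FST.Kap
import Pool.Agent.Helper56.IMZ.Imz
import Pool.Agent.Helper93.FST.N1
import Pool.Agent.Helper80.FST.Row2
import Pool.Agent.Helper5.FN3.N3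
import Pool.Agent.Helper80.FST.Row4
import Pool.Agent.Helper37.FST.Eq
import Pool.Agent.Helper37.FST.Fin
import Pool.Agent.Helper82.RGU.Row
import Pool.Agent.Helper61.FST.Exh
import Pool.Agent.Helper10.FST.Clz
import Pool.Agent.Helper10.FST.Cn
import Pool.Agent.Helper36.FST.Limj
import Pool.Agent.Helper93.EXPO.Row
import Pool.Agent.Helper89.NUM.Row
import Pool.Agent.Helper3.FST.Rfc

/-! The row `FIRST` of the selection, all rows plugged in. -/

set_option autoImplicit false

namespace Pool.Agent.Helper36.AM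

theorem row_num_all (N : ℕ) : Pool.Agent.Helper15.FST.ROW_NUM N :=
  Pool.Agent.Helper89.NUM.row_num Pool.Agent.Helper69.FST.row_lev Pool.Agent.Helper60.FST.row_lvf
    Pool.Agent.Helper61.FST.row_exh Pool.Agent.Helper13.FST.row_kap N

theorem row_eq_all : Pool.Agent.Helper15.FST.ROW_EQ := Pool.Agent.Helper37.FST.row_eq Pool.Agent.Helper69.FST.row_lev

/-- THE ROW FIRST -/
theorem first_all (M : ℕ) : Pool.Agent.Helper94.SEL.FIRST M :=
  Pool.Agent.Helper94.FSA.first_limg Pool.Agent.Helper69.FST.row_lev (Pool.Agent.Helper3.FST.row_rfc (M + 1))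
    (row_num_all (M + 1))
    (Pool.Agent.Helper17.FSA.row_a' Pool.Agent.Helper69.FST.row_lev Pool.Agent.Helper46.FST.row_trv
      Pool.Agent.Helper13.FST.row_kap Pool.Agent.Helper56.IMZ.row_imz Pool.Agent.Helper5.FN3.row_n3
      Pool.Agent.Helper80.FST.row_n4 Pool.Agent.Helper10.FST.row_clz
      (Pool.Agent.Helper37.FST.zmxp M Pool.Agent.Helper69.FST.row_lev) (Pool.Agent.Helper13.FST.row_cst (M + 1))
      (row_num_all (M + 1)))
    (Pool.Agent.Helper39.FST.row_b (M + 1) Pool.Agent.Helper69.FST.row_lev Pool.Agent.Helper60.FST.row_lvf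
      Pool.Agent.Helper46.FST.row_trv Pool.Agent.Helper82.RGU.row_rgu Pool.Agent.Helper61.FST.row_exh
      Pool.Agent.Helper13.FST.row_kap Pool.Agent.Helper56.IMZ.row_imz Pool.Agent.Helper93.FST.row_n1
      Pool.Agent.Helper5.FN3.row_n3 Pool.Agent.Helper80.FST.row_n4 row_eq_all (Pool.Agent.Helper37.FST.zex (M + 1))
      (Pool.Agent.Helper13.FST.row_cst (M + 1)) (row_num_all (M + 1)) (Pool.Agent.Helper36.FST.row_limj (M + 1))
      (Pool.Agent.Helper87.NJ.nslj (M + 1)))
    (Pool.Agent.Helper15.FST.row_c Pool.Agent.Helper69.FST.row_lev Pool.Agent.Helper60.FST.row_lvf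
      Pool.Agent.Helper61.FST.row_exh Pool.Agent.Helper13.FST.row_kap (Pool.Agent.Helper13.FST.row_cst (M + 1))
      Pool.Agent.Helper56.IMZ.row_imz Pool.Agent.Helper93.FST.row_n1 Pool.Agent.Helper80.FST.row_n2
      Pool.Agent.Helper5.FN3.row_n3 row_eq_all (Pool.Agent.Helper37.FST.zex (M + 1)) (row_num_all (M + 1))
      (Pool.Agent.Helper93.EXPO.row_expo (M + 1)) (Pool.Agent.Helper36.FST.row_limj (M + 1))
      (Pool.Agent.Helper87.NJ.nslj (M + 1)) Pool.Agent.Helper10.FST.cnum)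
    (Pool.Agent.Helper62.FST.row_limg M)

end Pool.Agent.Helper36.AM
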