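import Pool.Agent.Helper36.AM.Inst
import Pool.Agent.Helper36.AM.First
import Pool.Agent.Helper40.SEL.Top
import Pool.Agent.Helper85.ZMY.Zcl
import Pool.Agent.Helper26.VSV.Herx

/-! THE KAKEYA CONJECTURE IN ALL DIMENSIONS, no hypotheses. -/

set_option autoImplicit false

namespace Pool.Agent.Helper36.AM

/-- the selection, in all dimensions -/
theorem selp_all (M : ℕ) : Pool.Agent.Helper29.MX.SELP (M + 1) :=
  Pool.Agent.Helper40.SEL.selp_rows (by omega)
    ⟨first_all (M + 1), Pool.Agent.Helper26.VSV.herx (M + 1 + 1), Pool.Agent.Helper85.ZMY.zclx (M + 1)⟩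

theorem open_all : Open := ⟨selp_all⟩

/-- **THE KAKEYA CONJECTURE** (Hausdorff dimension) in all dimensions -/
theorem kakeya_all_dimensions (n : ℕ) (hn : 2 ≤ n) (K : Set (EuclideanSpace ℝ (Fin n)))
    (hK : ∀ e : EuclideanSpace ℝ (Fin n), ‖e‖ = 1 → ∃ p, ∀ t : ℝ, 0 ≤ t → t ≤ 1 → p + t • e ∈ K) : dimH K = n :=
  kakeya_open open_all n hn K hK

end Pool.Agent.Helper36.AM
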