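import Pool.Agent.Helper36.AM.Inst
import Pool.Agent.Helper40.Mink.Fin

/-! ALL DIMENSIONS: Hausdorff dimension and lower Minkowski dimension, from the open statements. -/

set_option autoImplicit false

namespace Pool.Agent.Helper36.AM

open MeasureTheory Metric

/-- THE KAKEYA CONJECTURE in all dimensions from the open statements: Hausdorff dimension, and (for bounded sets) lower
Minkowski dimension -/
theorem kakeya_both_open (O : Open) (n : ℕ) (hn : 2 ≤ n) (K : Set (EuclideanSpace ℝ (Fin n)))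
    (hK : ∀ e : EuclideanSpace ℝ (Fin n), ‖e‖ = 1 → ∃ p, ∀ t : ℝ, 0 ≤ t → t ≤ 1 → p + t • e ∈ K) :
    dimH K = n ∧ (Bornology.IsBounded K → ∀ ε : ℝ, 0 < ε → ∃ c : ℝ, 0 < c ∧ ∀ δ : ℝ, 0 < δ → δ < 1 →
      ENNReal.ofReal (c * δ ^ ε) ≤ volume (thickening δ K)) := by
  have h := kakeya_open O n hn K hK
  exact ⟨h, fun hb => Pool.Agent.Helper40.Mink.mink_of_dimH (by omega) K hb h⟩

end Pool.Agent.Helper36.AM
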