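import Pool.Agent.Helper36.AM.Top
import Pool.Agent.Helper36.AM.Su
import Pool.Agent.Helper36.MX.Asm
import Pool.Agent.Helper10.BLD.Fin2
import Pool.Agent.Helper13.AM.BTop
import Pool.Agent.Helper13.AM.Fin3
import Pool.Agent.Helper21.MX.OkT
import Pool.Agent.Helper37.DK2.Dlw
import Pool.Agent.Helper47.EXT.Exit
import Pool.Agent.Helper57.THA.Fin
import Pool.Agent.Helper59.OKD.OkD
import Pool.Agent.Helper67.SAT.Done
import Pool.Agent.Helper80.OKC.Fin
import Pool.Agent.Helper99.BLD.Adm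

/-! ALL DIMENSIONS: the list of the open frozen statements, and the Kakeya conjecture from them. -/

set_option autoImplicit false

namespace Pool.Agent.Helper36.AM

open Pool.Agent.Helper31.EC Pool.Agent.Helper84.MT
open Pool.Agent.Helper37.DK2 (DKU)
open Pool.Agent.Helper75.CC (CL CC)
open Pool.Agent.Helper29.MX (okM SELP)

noncomputable section

/-- the frozen statement which is still open: the selection -/
structure Open : Prop where
  sel : ∀ M, SELP (M + 1)

/-- THEOREM BLOCK of the exact calculus -/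
theorem block : Pool.Agent.Helper13.AM.BLOCK := Pool.Agent.Helper13.AM.block_tha Pool.Agent.Helper57.THA.st_tha

/-- everything except MAX is proved -/
theorem inp_of (mxT : ∀ M, MX1 (M + 1) (top (M + 2)) (top (M + 2)))
    (mxD : ∀ M k, MX1 (M + 1) (DKU (M + 2) k) (DKU (M + 2) k))
    (mxC : ∀ M k, MX1 (M + 1) (CL (M + 2) k) (CC (M + 2) k)) : Inp DKU CL CC where
  st0 := stu_zero
  st1 := stu_one
  dgr := fun M => Pool.Agent.Helper48.DGR.dgru (M + 1)
  mxT := mxT
  mxD := mxD
  mxC := mxC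
  dlow := fun M => Pool.Agent.Helper37.DK2.dlowU (M + 1)
  blk := fun M => Pool.Agent.Helper13.AM.blk_of DKU block (by omega) (Pool.Agent.Helper67.SAT.st_sat_full (M + 1))
    (Pool.Agent.Helper10.BLD.bld_adm (Pool.Agent.Helper99.BLD.st_adm (M + 1)))
  blk1 := fun M _ => Pool.Agent.Helper13.AM.blk1_of DKU CL block
    (Pool.Agent.Helper10.BLD.bld1_ad1 (Pool.Agent.Helper99.BLD.st_ad1 M))
  low := fun M => Pool.Agent.Helper10.BLD.low_fin M

theorem Open.inp (O : Open) : Inp DKU CL CC :=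
  inp_of (fun M => Pool.Agent.Helper36.MX.max_of (O.sel M) (Pool.Agent.Helper47.EXT.exitp (M + 1)) _ _ (Pool.Agent.Helper21.MX.okT (M + 2)))
    (fun M k => Pool.Agent.Helper36.MX.max_of (O.sel M) (Pool.Agent.Helper47.EXT.exitp (M + 1)) _ _ (Pool.Agent.Helper59.OKD.okD M k))
    (fun M k => Pool.Agent.Helper36.MX.max_of (O.sel M) (Pool.Agent.Helper47.EXT.exitp (M + 1)) _ _ (Pool.Agent.Helper80.OKC.okC_closed M k))

/-- THE KAKEYA CONJECTURE in all dimensions from the open statements -/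
theorem kakeya_open (O : Open) (n : ℕ) (hn : 2 ≤ n) (K : Set (EuclideanSpace ℝ (Fin n)))
    (hK : ∀ e : EuclideanSpace ℝ (Fin n), ‖e‖ = 1 → ∃ p, ∀ t : ℝ, 0 ≤ t → t ≤ 1 → p + t • e ∈ K) : dimH K = n :=
  kakeya_all O.inp n hn K hK

end

end Pool.Agent.Helper36.AM
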